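import Pool.Agent.CluN.Defs

/-!
# Mutation classes of abundant acyclic matrices (forks)
-/

namespace Pool.Agent.CluN

/-- mutation of a real matrix -/
noncomputable def muR {n : ℕ} (S : Fin n → Fin n → ℝ) (k : Fin n) : Fin n → Fin n → ℝ :=
  fun i j =>
  if i = k ∨ j = k then - S i j
  else S i j + max (S i k) 0 * max (S k j) 0 - max (-(S i k)) 0 * max (-(S k j)) 0

/-- forks with point of return `r` -/
structure Fork {n : ℕ} (S : Fin n → Fin n → ℝ) (r : Fin n) : Prop where
  skew : ∀ i j, S i j = - S j i
  big : ∀ i j, i ≠ j → 3 ≤ S i j ∨ 3 ≤ S j i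
  trans : ∀ i j l, i ≠ r → j ≠ r → l ≠ r → 0 < S i j → 0 < S j l → 0 < S i l
  cyc : ∀ i j, 0 < S i r → 0 < S r j → S i r < S j i ∧ S r j < S j i

variable {n : ℕ} {S : Fin n → Fin n → ℝ}

theorem muR_left (k j : Fin n) : muR S k k j = - S k j := by
  unfold muR
  rw [if_pos (Or.inl rfl)]

theorem muR_right (k i : Fin n) : muR S k i k = - S i k := by
  unfold muR
  rw [if_pos (Or.inr rfl)]

theorem muR_ne {i j k : Fin n} (hi : i ≠ k) (hj : j ≠ k) : muR S k i j =
    S i j + max (S i k) 0 * max (S k j) 0 - max (-(S i k)) 0 * max (-(S k j)) 0 := by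
  unfold muR
  rw [if_neg]
  rintro (h | h)
  · exact hi h
  · exact hj h

theorem muR_skew (h : ∀ i j, S i j = - S j i) (k : Fin n) :
    ∀ i j, muR S k i j = - muR S k j i := by
  intro i j
  by_cases h1 : i = k
  · subst h1
    rw [muR_left, muR_right, h i j]
  · by_cases h2 : j = k
    · subst h2
      rw [muR_left, muR_right, h i j]
    · rw [muR_ne h1 h2, muR_ne h2 h1, h i k, h k j, h i j]
      simp only [neg_neg]
      ring

theorem muR_neg (k : Fin n) : muR (fun i j => - S i j) k = fun i j => - muR S k i j := by
  funext i j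
  by_cases h1 : i = k
  · subst h1
    rw [muR_left, muR_left]
  · by_cases h2 : j = k
    · subst h2
      rw [muR_right, muR_right]
    · rw [muR_ne h1 h2, muR_ne h1 h2]
      simp only [neg_neg]
      ring

theorem diag_zero (h : ∀ i j, S i j = - S j i) (i : Fin n) : S i i = 0 := by
  have := h i i
  linarith

theorem muR_ge (hs : ∀ i j, S i j = - S j i) {i j k : Fin n} (hi : i ≠ k) (hj : j ≠ k)
    (h0 : 0 < S i j) (ht : 0 < S j k → 0 < S k i → 0 < S j i) : S i j ≤ muR S k i j := by
  rw [muR_ne hi hj]
  have h1 : 0 ≤ max (S i k) 0 * max (S k j) 0 :=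
    mul_nonneg (le_max_right _ _) (le_max_right _ _)
  have h2 : max (-(S i k)) 0 * max (-(S k j)) 0 = 0 := by
    by_cases h3 : 0 < S k i
    · by_cases h4 : 0 < S j k
      · have h5 := ht h4 h3
        rw [hs j i] at h5
        linarith
      · have h5 : max (-(S k j)) 0 = 0 := by
          apply max_eq_right
          rw [← hs j k]
          linarith
        rw [h5, mul_zero]
    · have h5 : max (-(S i k)) 0 = 0 := by
        apply max_eq_right
        rw [← hs k i]
        linarith
      rw [h5, zero_mul]
  rw [h2]
  linarith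

theorem muR_gt {i j k : Fin n} (hi : i ≠ k) (hj : j ≠ k) (h1 : 3 ≤ S j k) (h2 : 3 ≤ S k i)
    (h0 : 0 < S j i) : S k i < muR S k j i ∧ S j k < muR S k j i := by
  rw [muR_ne hj hi, max_eq_left (by linarith : 0 ≤ S j k), max_eq_left (by linarith : 0 ≤ S k i),
    max_eq_right (by linarith : -(S j k) ≤ 0), zero_mul, sub_zero]
  constructor
  · nlinarith
  · nlinarith

/-- positive entries are at least `3` -/
theorem big_of_pos (hs : ∀ i j, S i j = - S j i) (hb : ∀ i j, i ≠ j → 3 ≤ S i j ∨ 3 ≤ S j i)
    {i j : Fin n} (h : 0 < S i j) : 3 ≤ S i j := by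
  have hij : i ≠ j := by
    rintro rfl
    rw [diag_zero hs] at h
    exact lt_irrefl _ h
  rcases hb i j hij with h1 | h1
  · exact h1
  · rw [hs j i] at h1
    linarith

/-- signs away from `k` -/
theorem sgn_iff (hs : ∀ i j, S i j = - S j i) (hb : ∀ i j, i ≠ j → 3 ≤ S i j ∨ 3 ≤ S j i)
    {i j k : Fin n} (hi : i ≠ k) (hj : j ≠ k) (h1 : 0 < S i k → 0 < S k j → 0 < S i j)
    (h2 : 0 < S j k → 0 < S k i → 0 < S j i) : 0 < muR S k i j ↔ 0 < S i j := by
  constructor
  · intro h
    by_contra hn
    have hij : i ≠ j := by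
      rintro rfl
      rw [diag_zero (muR_skew hs k)] at h
      exact lt_irrefl _ h
    have h3 : 0 < S j i := by
      rcases hb i j hij with h3 | h3
      · exact absurd (by linarith) hn
      · linarith
    have h4 := muR_ge hs hj hi h3 h1
    rw [muR_skew hs k j i] at h4
    linarith
  · intro h
    exact lt_of_lt_of_le h (muR_ge hs hi hj h h2)

/-- one mutation of an acyclic matrix -/
theorem fork_of_trans (hs : ∀ i j, S i j = - S j i)
    (hb : ∀ i j, i ≠ j → 3 ≤ S i j ∨ 3 ≤ S j i)
    (ht : ∀ i j l, 0 < S i j → 0 < S j l → 0 < S i l) (k : Fin n) : Fork (muR S k) k where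
  skew := muR_skew hs k
  big := by
    intro i j hij
    by_cases hi : i = k
    · subst hi
      rw [muR_left, muR_right, ← hs j i, ← hs i j]
      exact (hb i j hij).symm
    · by_cases hj : j = k
      · subst hj
        rw [muR_left, muR_right, ← hs j i, ← hs i j]
        exact (hb i j hij).symm
      · rcases hb i j hij with h | h
        · exact Or.inl (h.trans (muR_ge hs hi hj (by linarith) (ht _ _ _)))
        · exact Or.inr (h.trans (muR_ge hs hj hi (by linarith) (ht _ _ _)))
  trans := by
    intro i j l hi hj hl h1 h2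
    rw [sgn_iff hs hb hi hj (ht _ _ _) (ht _ _ _)] at h1
    rw [sgn_iff hs hb hj hl (ht _ _ _) (ht _ _ _)] at h2
    rw [sgn_iff hs hb hi hl (ht _ _ _) (ht _ _ _)]
    exact ht _ _ _ h1 h2
  cyc := by
    intro i j h1 h2
    rw [muR_right, ← hs k i] at h1
    rw [muR_left, ← hs j k] at h2
    rw [muR_right, muR_left, ← hs k i, ← hs j k]
    have hi : i ≠ k := by
      rintro rfl
      rw [diag_zero hs] at h1
      exact lt_irrefl _ h1
    have hj : j ≠ k := by
      rintro rfl
      rw [diag_zero hs] at h2
      exact lt_irrefl _ h2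
    exact muR_gt hi hj (big_of_pos hs hb h2) (big_of_pos hs hb h1) (ht _ _ _ h2 h1)

theorem Fork.neg {r : Fin n} (h : Fork S r) : Fork (fun i j => - S i j) r where
  skew := by
    intro i j
    rw [h.skew i j]
  big := by
    intro i j hij
    rw [← h.skew j i, ← h.skew i j]
    exact (h.big i j hij).symm
  trans := by
    intro i j l hi hj hl h1 h2
    rw [← h.skew] at h1 h2 ⊢
    exact h.trans _ _ _ hl hj hi h2 h1
  cyc := by
    intro i j h1 h2
    rw [← h.skew] at h1 h2
    rw [← h.skew, ← h.skew, ← h.skew]
    exact (h.cyc j i h2 h1).symm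

theorem Fork.step_out {r k : Fin n} (h : Fork S r) (hkr : k ≠ r) (hrk : 0 < S r k) :
    Fork (muR S k) k := by
  have hs := h.skew
  have hb := h.big
  have hrk3 : 3 ≤ S r k := big_of_pos hs hb hrk
  have hs' := muR_skew hs k
  -- `r` is a source away from `k`
  have hout : ∀ j, j ≠ k → 0 < S k j → S k j < muR S k r j ∧ S r k < muR S k r j := by
    intro j hj hkj
    have hkj3 : 3 ≤ S k j := big_of_pos hs hb hkj
    rw [muR_ne hkr.symm hj, max_eq_left hrk.le, max_eq_left hkj.le,
      max_eq_right (by linarith : -(S r k) ≤ 0), zero_mul, sub_zero]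
    by_cases h1 : 0 < S r j
    · constructor
      · nlinarith
      · nlinarith
    · by_cases hjr : j = r
      · subst hjr
        rw [hs k j] at hkj
        linarith
      · have h2 : 0 < S j r := by
          rcases hb j r hjr with h3 | h3
          · linarith
          · exact absurd (by linarith) h1
        obtain ⟨h3, h4⟩ := h.cyc j k h2 hrk
        have h5 : S r j = - S j r := hs r j
        constructor
        · nlinarith
        · nlinarith
  have hsrc : ∀ j, j ≠ k → j ≠ r → 3 ≤ muR S k r j := by
    intro j hj hjr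
    rcases hb k j hj.symm with h1 | h1
    · have := (hout j hj (by linarith)).1
      linarith
    · have h2 : 0 < S r j := by
        by_contra hn
        have h3 : 0 < S j r := by
          rcases hb j r hjr with h3 | h3
          · linarith
          · exact absurd (by linarith) hn
        have h4 := (h.cyc j k h3 hrk).1
        rw [hs k j] at h4
        linarith
      have h3 : S r j ≤ muR S k r j := by
        apply muR_ge hs hkr.symm hj h2
        intro _ h5
        rw [hs k r] at h5
        linarith
      have := big_of_pos hs hb h2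
      linarith
  have ht : ∀ i j, i ≠ r → j ≠ r → 0 < S i k → 0 < S k j → 0 < S i j :=
    fun i j hi hj => h.trans i k j hi hkr hj
  have hrpos : ∀ i, i ≠ k → ¬ 0 < muR S k i r := by
    intro i hi h1
    by_cases hir : i = r
    · subst hir
      rw [diag_zero hs'] at h1
      exact lt_irrefl _ h1
    · have := hsrc i hi hir
      rw [hs' i r] at h1
      linarith
  refine ⟨hs', ?_, ?_, ?_⟩
  · intro i j hij
    by_cases hi : i = k
    · subst hi
      rw [muR_left, muR_right, ← hs j i, ← hs i j]
      exact (hb i j hij).symm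
    · by_cases hj : j = k
      · subst hj
        rw [muR_left, muR_right, ← hs j i, ← hs i j]
        exact (hb i j hij).symm
      · by_cases hir : i = r
        · subst hir
          exact Or.inl (hsrc j hj hij.symm)
        · by_cases hjr : j = r
          · subst hjr
            exact Or.inr (hsrc i hi hij)
          · rcases hb i j hij with h1 | h1
            · exact Or.inl (h1.trans (muR_ge hs hi hj (by linarith) (ht _ _ hjr hir)))
            · exact Or.inr (h1.trans (muR_ge hs hj hi (by linarith) (ht _ _ hir hjr)))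
  · intro i j l hi hj hl h1 h2
    by_cases hjr : j = r
    · subst hjr
      exact absurd h1 (hrpos i hi)
    · by_cases hlr : l = r
      · subst hlr
        exact absurd h2 (hrpos j hj)
      · by_cases hir : i = r
        · subst hir
          have := hsrc l hl hlr
          linarith
        · rw [sgn_iff hs hb hi hj (ht _ _ hir hjr) (ht _ _ hjr hir)] at h1
          rw [sgn_iff hs hb hj hl (ht _ _ hjr hlr) (ht _ _ hlr hjr)] at h2
          rw [sgn_iff hs hb hi hl (ht _ _ hir hlr) (ht _ _ hlr hir)]
          exact h.trans _ _ _ hir hjr hlr h1 h2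
  · intro i j h1 h2
    rw [muR_right, ← hs k i] at h1
    rw [muR_left, ← hs j k] at h2
    rw [muR_right, muR_left, ← hs k i, ← hs j k]
    have hi : i ≠ k := by
      rintro rfl
      rw [diag_zero hs] at h1
      exact lt_irrefl _ h1
    have hj : j ≠ k := by
      rintro rfl
      rw [diag_zero hs] at h2
      exact lt_irrefl _ h2
    have hir : i ≠ r := by
      rintro rfl
      rw [hs k i] at h1
      linarith
    by_cases hjr : j = r
    · subst hjr
      exact hout i hi h1
    · exact muR_gt hi hj (big_of_pos hs hb h2) (big_of_pos hs hb h1) (ht _ _ hjr hir h2 h1)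

theorem Fork.step {r k : Fin n} (h : Fork S r) (hkr : k ≠ r) : Fork (muR S k) k := by
  rcases h.big r k hkr.symm with h1 | h1
  · exact h.step_out hkr (by linarith)
  · have h2 : Fork (muR (fun i j => - S i j) k) k := by
      apply h.neg.step_out hkr
      rw [← h.skew k r]
      linarith
    have h3 := h2.neg
    rw [muR_neg] at h3
    simpa using h3

/-- the skew-symmetric real matrix -/
noncomputable def sym (σ : Fin n → ℝ) (b : Fin n → Fin n → ℤ) : Fin n → Fin n → ℝ :=
  fun i j => σ i * (b i j : ℝ) / σ j

theorem sym_mutB {σ : Fin n → ℝ} (hσ : ∀ i, 0 < σ i) (b : Fin n → Fin n → ℤ) (k : Fin n) :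
    sym σ (mutB b k) = muR (sym σ b) k := by
  funext i j
  have hi := hσ i
  have hj := hσ j
  have hk := hσ k
  by_cases h : i = k ∨ j = k
  · unfold muR sym mutB
    rw [if_pos h, if_pos h]
    push_cast
    ring
  · have hm : ∀ (x y : ℝ) (u v : Fin n), max (σ u * x / σ v) 0 = σ u * (max x 0) / σ v := by
      intro x _ u v
      have hu := hσ u
      have hv := hσ v
      rcases le_total x 0 with hx | hx
      · rw [max_eq_right hx, mul_zero, zero_div]
        apply max_eq_right
        apply div_nonpos_of_nonpos_of_nonneg _ hv.le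
        exact mul_nonpos_of_nonneg_of_nonpos hu.le hx
      · rw [max_eq_left hx]
        apply max_eq_left
        positivity
    unfold muR sym mutB
    rw [if_neg h, if_neg h]
    have e1 : ∀ (x : ℝ) (u v : Fin n), -(σ u * x / σ v) = σ u * (-x) / σ v := by
      intro x u v
      ring
    rw [e1, e1, hm _ 0, hm _ 0, hm _ 0, hm _ 0]
    push_cast
    field_simp

theorem sym_skew {b : Fin n → Fin n → ℤ} {d : Fin n → ℤ} (hd : ∀ i, 0 < d i)
    (h : ∀ i j, d i * b i j = -(d j * b j i)) :
    ∀ i j, sym (fun i => Real.sqrt (d i)) b i j = - sym (fun i => Real.sqrt (d i)) b j i := by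
  intro i j
  have hi : (0 : ℝ) < d i := by exact_mod_cast hd i
  have hj : (0 : ℝ) < d j := by exact_mod_cast hd j
  have h1 : (d i : ℝ) * b i j = -(d j * b j i) := by exact_mod_cast h i j
  have hi' := Real.sqrt_pos.2 hi
  have hj' := Real.sqrt_pos.2 hj
  have e1 := Real.mul_self_sqrt hi.le
  have e2 := Real.mul_self_sqrt hj.le
  unfold sym
  rw [div_eq_iff hj'.ne', ← neg_div, div_mul_eq_mul_div, eq_div_iff hi'.ne']
  calc Real.sqrt (d i) * (b i j : ℝ) * Real.sqrt (d i) =
        (Real.sqrt (d i) * Real.sqrt (d i)) * b i j := by ring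
    _ = -((Real.sqrt (d j) * Real.sqrt (d j)) * b j i) := by rw [e1, e2, h1]
    _ = -(Real.sqrt (d j) * (b j i : ℝ)) * Real.sqrt (d j) := by ring

theorem sym_mul {σ : Fin n → ℝ} (hσ : ∀ i, 0 < σ i) (b : Fin n → Fin n → ℤ) (i j : Fin n) :
    sym σ b i j * sym σ b j i = ((b i j * b j i : ℤ) : ℝ) := by
  have hi := (hσ i).ne'
  have hj := (hσ j).ne'
  unfold sym
  push_cast
  field_simp

theorem mutB_mutB (b : Fin n → Fin n → ℤ) (k : Fin n) : mutB (mutB b k) k = b := by
  funext i j
  by_cases h : i = k ∨ j = k
  · unfold mutB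
    rw [if_pos h, if_pos h, neg_neg]
  · have h1 : i ≠ k := fun h' => h (Or.inl h')
    have h2 : j ≠ k := fun h' => h (Or.inr h')
    simp only [mutB, h1, h2, or_self, or_true, true_or, if_true, if_false, neg_neg]
    ring

/-- mutation sequences without repetition -/
inductive Tree (b₀ : Fin n → Fin n → ℤ) : (Fin n → Fin n → ℤ) → Option (Fin n) → Prop
  | init : Tree b₀ b₀ none
  | step (b : Fin n → Fin n → ℤ) (o : Option (Fin n)) (k : Fin n) :
      Tree b₀ b o → o ≠ some k → Tree b₀ (mutB b k) (some k)

theorem Tree.mut {b₀ b : Fin n → Fin n → ℤ} {o : Option (Fin n)} (h : Tree b₀ b o) (k : Fin n) :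
    ∃ o', Tree b₀ (mutB b k) o' := by
  by_cases hk : o = some k
  · cases h with
    | init => exact absurd hk (by simp)
    | step b o k' h1 h2 =>
      have : k' = k := Option.some_injective _ hk
      subst this
      rw [mutB_mutB]
      exact ⟨o, h1⟩
  · exact ⟨some k, Tree.step b o k h hk⟩

theorem MatReach.tree {b₀ b : Fin n → Fin n → ℤ} (h : MatReach b₀ b) : ∃ o, Tree b₀ b o := by
  induction h with
  | init => exact ⟨none, Tree.init⟩
  | step b k _ ih =>
    obtain ⟨o, ho⟩ := ih
    exact ho.mut k

theorem abundant_of_acyclic {n : ℕ} (b : Fin n → Fin n → ℤ) (hs : IsSkew b) (ha : Acyclic b)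
    (hw : Abundant b) : ∀ b', MatReach b b' → Abundant b' := by
  obtain ⟨d, hd, hdb⟩ := hs
  by_cases hn : n ≤ 2
  · intro b' hb'
    induction hb' with
    | init => exact hw
    | step b' k _ ih =>
      intro i j hij
      refine ⟨?_, Or.inl hn⟩
      have h1 : i = k ∨ j = k := by
        by_contra h
        push Not at h
        obtain ⟨h1, h2⟩ := h
        have e1 := i.2
        have e2 := j.2
        have e3 := k.2
        have e4 : (i : ℕ) ≠ j := fun h => hij (Fin.ext h)
        have e5 : (i : ℕ) ≠ k := fun h => h1 (Fin.ext h)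
        have e6 : (j : ℕ) ≠ k := fun h => h2 (Fin.ext h)
        omega
      unfold mutB
      rw [if_pos h1]
      exact neg_ne_zero.2 (ih i j hij).1
  · set σ : Fin n → ℝ := fun i => Real.sqrt (d i) with hσdef
    have hσ : ∀ i, 0 < σ i := by
      intro i
      have : (0 : ℝ) < d i := by exact_mod_cast hd i
      exact Real.sqrt_pos.2 this
    have hs0 : ∀ i j, sym σ b i j = - sym σ b j i := sym_skew hd hdb
    have hpos : ∀ i j, 0 < sym σ b i j ↔ 0 < b i j := by
      intro i j
      have hi := hσ i
      have hj := hσ j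
      unfold sym
      constructor
      · intro h
        have h1 : 0 < σ i * (b i j : ℝ) := by
          have := mul_pos h hj
          rwa [div_mul_cancel₀ _ hj.ne'] at this
        exact_mod_cast (pos_iff_pos_of_mul_pos h1).1 hi
      · intro h
        have : (0 : ℝ) < b i j := by exact_mod_cast h
        positivity
    have hbig : ∀ (b' : Fin n → Fin n → ℤ), (∀ i j, sym σ b' i j = - sym σ b' j i) →
        ((∀ i j, i ≠ j → 3 ≤ sym σ b' i j ∨ 3 ≤ sym σ b' j i) ↔ Abundant b') := by
      intro b' hs'
      constructor
      · intro h i j hij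
        have h1 := sym_mul hσ b' i j
        have h2 : 9 ≤ -((b' i j * b' j i : ℤ) : ℝ) := by
          rw [← h1]
          rcases h i j hij with h3 | h3
          · rw [hs' j i]
            nlinarith
          · rw [hs' i j]
            nlinarith
        have h3 : 9 ≤ -(b' i j * b' j i) := by exact_mod_cast h2
        refine ⟨?_, Or.inr ?_⟩
        · intro h0
          rw [h0, zero_mul] at h3
          omega
        · exact h3.trans (neg_le_abs _)
      · intro h i j hij
        have h1 := sym_mul hσ b' i j
        have h2 : 9 ≤ |b' i j * b' j i| := by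
          rcases (h i j hij).2 with h2 | h2
          · exact absurd h2 hn
          · exact h2
        have h3 : (9 : ℝ) ≤ |((b' i j * b' j i : ℤ) : ℝ)| := by exact_mod_cast h2
        rw [← h1, hs' j i, mul_neg, abs_neg, abs_mul_self] at h3
        by_contra hcon
        push Not at hcon
        obtain ⟨h4, h5⟩ := hcon
        rw [hs' j i] at h5
        nlinarith
    have hb0 := (hbig b hs0).2 hw
    have ht0 : ∀ i j l, 0 < sym σ b i j → 0 < sym σ b j l → 0 < sym σ b i l := by
      obtain ⟨ρ, hρ⟩ := ha
      intro i j l h1 h2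
      have h3 := hρ i j ((hpos i j).1 h1)
      have h4 := hρ j l ((hpos j l).1 h2)
      have hil : i ≠ l := by
        rintro rfl
        omega
      rcases hb0 i l hil with h5 | h5
      · linarith
      · have h6 := hρ l i ((hpos l i).1 (by linarith))
        omega
    have key : ∀ b' o, Tree b b' o → (o = none → b' = b) ∧
        (∀ r, o = some r → Fork (sym σ b') r) := by
      intro b' o h
      induction h with
      | init => exact ⟨fun _ => rfl, fun r h => absurd h (by simp)⟩
      | step b' o k _ hok ih =>
        refine ⟨fun h => absurd h (by simp), ?_⟩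
        intro r hr
        have hkr : k = r := Option.some_injective _ hr
        subst hkr
        rw [sym_mutB hσ]
        rcases o with _ | r
        · rw [ih.1 rfl]
          exact fork_of_trans hs0 hb0 ht0 k
        · exact (ih.2 r rfl).step (fun h => hok (by rw [h]))
    intro b' hb'
    obtain ⟨o, ho⟩ := hb'.tree
    rcases o with _ | r
    · rw [(key b' _ ho).1 rfl]
      exact hw
    · have hf := (key b' _ ho).2 r rfl
      exact (hbig b' hf.skew).1 hf.big

end Pool.Agent.CluN
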