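import Pool.Agent.CluN.Mono

/-!
# Expansion in Laurent monomials
-/

namespace Pool.Agent.CluN

variable {F : Type} [Field F] {n : ℕ} {z : Fin n → F}

/-- the Laurent polynomial with coefficients `g` -/
noncomputable def lc (z : Fin n → F) (g : (Fin n → ℤ) →₀ ℤ) : F :=
  Finsupp.linearCombination ℤ (mon z) g

theorem mon_single (z : Fin n → F) (k : Fin n) (t : ℤ) : mon z (Pi.single k t) = z k ^ t := by
  unfold mon
  rw [Finset.prod_eq_single k]
  · rw [Pi.single_eq_same]
  · intro i _ hi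
    rw [Pi.single_eq_of_ne hi, zpow_zero]
  · intro h
    exact absurd (Finset.mem_univ k) h

theorem zpow_mul_mem_span (hz : ∀ i, z i ≠ 0) (k : Fin n) (t : ℤ) {A B : Set (Fin n → ℤ)}
    (hAB : ∀ m ∈ A, m + Pi.single k t ∈ B) {x : F} (hx : x ∈ Submodule.span ℤ (mon z '' A)) :
    x * z k ^ t ∈ Submodule.span ℤ (mon z '' B) := by
  induction hx using Submodule.span_induction with
  | mem x hx =>
    obtain ⟨m, hm, rfl⟩ := hx
    apply Submodule.subset_span
    refine ⟨m + Pi.single k t, hAB m hm, ?_⟩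
    rw [mon_add hz, mon_single]
  | zero => rw [zero_mul]; exact Submodule.zero_mem _
  | add x y _ _ hx hy => rw [add_mul]; exact Submodule.add_mem _ hx hy
  | smul a x _ hx => rw [smul_mul_assoc]; exact Submodule.smul_mem _ _ hx

theorem eval₂_mem_span (hz : ∀ i, z i ≠ 0) (k : Fin n) (p : Polynomial (Ck z k)) :
    Polynomial.eval₂ (Ck z k).subtype (z k) p ∈
      Submodule.span ℤ (mon z '' {m | 0 ≤ m k}) := by
  rw [Polynomial.eval₂_eq_sum_range]
  apply Submodule.sum_mem
  intro s _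
  have h1 : ((Ck z k).subtype (p.coeff s)) ∈
      Submodule.span ℤ {x | ∃ m : Fin n → ℤ, m k = 0 ∧ x = mon z m} :=
    (mem_Ck_iff hz k _).1 (p.coeff s).2
  have h2 : {x | ∃ m : Fin n → ℤ, m k = 0 ∧ x = mon z m} = mon z '' {m | m k = 0} := by
    ext x
    constructor
    · rintro ⟨m, hm, rfl⟩
      exact ⟨m, hm, rfl⟩
    · rintro ⟨m, hm, rfl⟩
      exact ⟨m, hm, rfl⟩
  rw [h2] at h1
  rw [← zpow_natCast]
  apply zpow_mul_mem_span hz k s _ h1
  intro m hm
  rw [Set.mem_setOf_eq] at hm ⊢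
  rw [Pi.add_apply, Pi.single_eq_same, hm]
  omega

theorem exists_lc (hz : Ind z) (k : Fin n) (Q : Ck z k) (f : F) (hf : InT (Ck z k) (z k) Q f) :
    ∃ g, f = lc z g := by
  obtain ⟨M, p, h1, -⟩ := hf
  have h2 := eval₂_mem_span hz.1 k p
  rw [← h1] at h2
  have h3 : z k ^ M * f * z k ^ (-(M : ℤ)) ∈ Submodule.span ℤ (mon z '' Set.univ) :=
    zpow_mul_mem_span hz.1 k _ (fun _ _ => Set.mem_univ _) h2
  have h4 : z k ^ M * f * z k ^ (-(M : ℤ)) = f := by
    have h5 : z k ^ M ≠ 0 := pow_ne_zero _ (hz.1 k)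
    rw [zpow_neg, zpow_natCast]
    field_simp
  rw [h4, Finsupp.mem_span_image_iff_linearCombination] at h3
  obtain ⟨g, -, hg⟩ := h3
  exact ⟨g, hg.symm⟩

theorem lc_shift (hz : ∀ i, z i ≠ 0) (k : Fin n) (t : ℤ) (g : (Fin n → ℤ) →₀ ℤ) :
    lc z (Finsupp.mapDomain (fun m => m + Pi.single k t) g) = lc z g * z k ^ t := by
  unfold lc
  rw [Finsupp.linearCombination_mapDomain, Finsupp.linearCombination_apply,
    Finsupp.linearCombination_apply, Finsupp.sum, Finsupp.sum, Finset.sum_mul]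
  apply Finset.sum_congr rfl
  intro m _
  rw [Function.comp_apply, mon_add hz, mon_single, smul_mul_assoc]

theorem support_of_ordGe (hz : Ind z) (g : (Fin n → ℤ) →₀ ℤ) (k : Fin n) (E : ℕ)
    (h : OrdGe (Ck z k) (z k) E (lc z g)) (m : Fin n → ℤ) (hm : g m ≠ 0) : -(E : ℤ) ≤ m k := by
  obtain ⟨p, hp⟩ := h
  have h1 := eval₂_mem_span hz.1 k p
  rw [← hp, mul_comm, ← zpow_natCast, ← lc_shift hz.1 k E g,
    Finsupp.mem_span_image_iff_linearCombination] at h1
  obtain ⟨l, hl, hl'⟩ := h1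
  have h2 : l = Finsupp.mapDomain (fun m => m + Pi.single k (E : ℤ)) g := hz.2 hl'
  have hinj : Function.Injective (fun m : Fin n → ℤ => m + Pi.single k (E : ℤ)) :=
    add_left_injective _
  have h3 : l (m + Pi.single k (E : ℤ)) = g m := by
    rw [h2]
    exact Finsupp.mapDomain_apply hinj g m
  have h4 : m + Pi.single k (E : ℤ) ∈ l.support := by
    rw [Finsupp.mem_support_iff, h3]
    exact hm
  have h5 := (Finsupp.mem_supported _ _).1 hl h4
  rw [Set.mem_setOf_eq, Pi.add_apply, Pi.single_eq_same] at h5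
  omega

theorem degLe_zero (C : Subring F) (y : F) (E : ℕ) : DegLe C y E 0 := by
  refine ⟨0, 0, ?_, ?_⟩
  · rw [Polynomial.eval₂_zero, mul_zero]
  · rw [Polynomial.natDegree_zero]
    exact Nat.zero_le _

theorem DegLe.add {C : Subring F} {y : F} {E : ℕ} {f f' : F} (h : DegLe C y E f)
    (h' : DegLe C y E f') : DegLe C y E (f + f') := by
  obtain ⟨M, p, h1, h2⟩ := h
  obtain ⟨M', p', h1', h2'⟩ := h'
  refine ⟨M + M', Polynomial.X ^ M' * p + Polynomial.X ^ M * p', ?_, ?_⟩
  · rw [Polynomial.eval₂_add, Polynomial.eval₂_mul, Polynomial.eval₂_mul, Polynomial.eval₂_X_pow,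
      Polynomial.eval₂_X_pow, ← h1, ← h1', pow_add]
    ring
  · refine (Polynomial.natDegree_add_le _ _).trans (max_le ?_ ?_)
    · refine (Polynomial.natDegree_mul_le).trans ?_
      have := Polynomial.natDegree_X_pow_le (R := C) M'
      omega
    · refine (Polynomial.natDegree_mul_le).trans ?_
      have := Polynomial.natDegree_X_pow_le (R := C) M
      omega

theorem degLe_mon (hz : ∀ i, z i ≠ 0) (k : Fin n) (E : ℕ) (a : ℤ) (m : Fin n → ℤ)
    (hm : m k ≤ E) : DegLe (Ck z k) (z k) E (a • mon z m) := by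
  have h1 : mon z (Function.update m k 0) ∈ Ck z k := by
    rw [mem_Ck_iff hz]
    exact Submodule.subset_span ⟨_, Function.update_self _ _ _, rfl⟩
  have h2 : a • mon z (Function.update m k 0) ∈ Ck z k := (Ck z k).zsmul_mem h1 a
  have h3 : m = Function.update m k 0 + Pi.single k (m k) := by
    funext i
    by_cases hi : i = k
    · subst hi
      simp
    · simp [hi]
  have h4 : mon z m = mon z (Function.update m k 0) * z k ^ m k := by
    conv_lhs => rw [h3]
    rw [mon_add hz, mon_single]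
  refine ⟨(-(m k)).toNat, Polynomial.C ⟨_, h2⟩ * Polynomial.X ^ (m k).toNat, ?_, ?_⟩
  · rw [Polynomial.eval₂_mul, Polynomial.eval₂_C, Polynomial.eval₂_X_pow, h4]
    change z k ^ (-(m k)).toNat * a • (mon z (Function.update m k 0) * z k ^ m k) =
      a • mon z (Function.update m k 0) * z k ^ (m k).toNat
    have h5 : z k ^ (m k).toNat = z k ^ (-(m k)).toNat * z k ^ m k := by
      rw [← zpow_natCast, ← zpow_natCast, ← zpow_add₀ (hz k)]
      congr 1
      omega
    rw [h5, ← smul_mul_assoc]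
    ring
  · refine (Polynomial.natDegree_C_mul_X_pow_le _ _).trans ?_
    omega

theorem degLe_of_support (hz : Ind z) (g : (Fin n → ℤ) →₀ ℤ) (k : Fin n) (E : ℕ)
    (h : ∀ m, g m ≠ 0 → m k ≤ E) : DegLe (Ck z k) (z k) E (lc z g) := by
  unfold lc
  rw [Finsupp.linearCombination_apply, Finsupp.sum]
  refine Finset.sum_induction _ (fun x => DegLe (Ck z k) (z k) E x) (fun a b => DegLe.add)
    (degLe_zero _ _ _) ?_
  intro m hm
  exact degLe_mon hz.1 k E _ m (h m (Finsupp.mem_support_iff.1 hm))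

end Pool.Agent.CluN
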