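import Mathlib

/-!
# An inequality for weights
-/

namespace Pool.Agent.CluN

theorem no_weights {n : ℕ} (y : Fin n → ℝ) (t : Fin n → Fin n → ℝ) (hy : ∀ i, 0 ≤ y i)
    (hs : 0 < ∑ j, y j) (hhalf : ∀ i, 2 * y i < ∑ j, y j) (ht : ∀ i j, 0 ≤ t i j)
    (ht1 : ∀ i j, i ≠ j → t i j < ∑ l, y l) (ht2 : ∀ i, ∑ j, t i j < 2 * ∑ l, y l)
    (h9 : n ≤ 2 ∨ ∀ i j, i ≠ j → 9 * (y i * y j) ≤ t i j * t j i) : False := by
  classical
  set s : ℝ := ∑ j, y j with hsdef
  have hex : ∃ i, 0 < y i := by
    by_contra hcon
    push Not at hcon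
    have : s ≤ 0 := Finset.sum_nonpos fun i _ => hcon i
    linarith
  rcases h9 with h2 | h9
  · have h3 : ∑ i, 2 * y i < ∑ _i : Fin n, s := by
      obtain ⟨i, hi⟩ := hex
      exact Finset.sum_lt_sum (fun i _ => (hhalf i).le) ⟨i, Finset.mem_univ _, hhalf i⟩
    rw [← Finset.mul_sum, ← hsdef, Finset.sum_const, Finset.card_univ, Fintype.card_fin,
      nsmul_eq_mul] at h3
    have h4 : (n : ℝ) ≤ 2 := by exact_mod_cast h2
    nlinarith
  · -- every weight is less than a third of the sum
    have hthird : ∀ i, 3 * y i < s := by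
      intro i
      have h1 : ∀ j, 9 * (y i * y j) - (if i = j then 9 * (y i * y i) else 0) ≤ t i j * s := by
        intro j
        split_ifs with hij
        · subst hij
          have := mul_nonneg (ht i i) hs.le
          linarith
        · have e1 := h9 i j hij
          have e2 : t i j * t j i ≤ t i j * s :=
            mul_le_mul_of_nonneg_left (ht1 j i (Ne.symm hij)).le (ht i j)
          linarith
      have h2 := Finset.sum_le_sum fun j (_ : j ∈ Finset.univ) => h1 j
      rw [Finset.sum_sub_distrib, ← Finset.mul_sum, ← Finset.mul_sum, ← hsdef,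
        Finset.sum_ite_eq, if_pos (Finset.mem_univ i), ← Finset.sum_mul] at h2
      have h3 := ht2 i
      have h4 : (∑ j, t i j) * s < 2 * s * s := by
        exact mul_lt_mul_of_pos_right h3 hs
      have h5 := hhalf i
      by_contra h6
      push Not at h6
      nlinarith [mul_nonneg (sub_nonneg.2 h6) (show 0 ≤ 2 * s - 3 * y i by linarith)]
    -- the sum of the squares
    have hsq : ∑ i, y i * y i < s / 3 * s := by
      have h1 : ∑ i, y i * y i < ∑ i, y i * (s / 3) := by
        obtain ⟨i, hi⟩ := hex
        refine Finset.sum_lt_sum (fun i _ => ?_) ⟨i, Finset.mem_univ _, ?_⟩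
        · exact mul_le_mul_of_nonneg_left (by linarith [hthird i]) (hy i)
        · exact mul_lt_mul_of_pos_left (by linarith [hthird i]) hi
      rw [← Finset.sum_mul, ← hsdef] at h1
      linarith
    have hpair : ∀ i j, 6 * (y i * y j) - (if i = j then 6 * (y i * y i) else 0) ≤
        y i * t i j + y j * t j i := by
      intro i j
      split_ifs with hij
      · subst hij
        have := mul_nonneg (hy i) (ht i i)
        linarith
      · have e1 := h9 i j hij
        have e2 : 0 ≤ y i * y j := mul_nonneg (hy i) (hy j)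
        have e3 : 0 ≤ y i * t i j + y j * t j i :=
          add_nonneg (mul_nonneg (hy i) (ht i j)) (mul_nonneg (hy j) (ht j i))
        have e4 : (6 * (y i * y j)) ^ 2 ≤ (y i * t i j + y j * t j i) ^ 2 := by
          have e5 := mul_le_mul_of_nonneg_left e1 e2
          nlinarith [sq_nonneg (y i * t i j - y j * t j i)]
        have := abs_le_of_sq_le_sq e4 e3
        linarith [le_abs_self (6 * (y i * y j)), this]
    have hdbl := Finset.sum_le_sum fun i (_ : i ∈ Finset.univ) =>
      Finset.sum_le_sum fun j (_ : j ∈ Finset.univ) => hpair i j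
    have hA : ∑ i, ∑ j, (6 * (y i * y j) - (if i = j then 6 * (y i * y i) else 0)) =
        6 * (s * s) - 6 * ∑ i, y i * y i := by
      have h1 : ∀ i, ∑ j, (6 * (y i * y j) - (if i = j then 6 * (y i * y i) else 0)) =
          6 * (y i * s) - 6 * (y i * y i) := by
        intro i
        rw [Finset.sum_sub_distrib, ← Finset.mul_sum, ← Finset.mul_sum, ← hsdef,
          Finset.sum_ite_eq, if_pos (Finset.mem_univ i)]
      rw [Finset.sum_congr rfl fun i _ => h1 i, Finset.sum_sub_distrib, ← Finset.mul_sum,
        ← Finset.sum_mul, ← hsdef, ← Finset.mul_sum]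
    have hB : ∑ i, ∑ j, (y i * t i j + y j * t j i) = 2 * ∑ i, y i * ∑ j, t i j := by
      have h1 : ∑ i, ∑ j, y j * t j i = ∑ i, ∑ j, y i * t i j := Finset.sum_comm
      have h2 : ∑ i, ∑ j, (y i * t i j + y j * t j i) =
          (∑ i, ∑ j, y i * t i j) + ∑ i, ∑ j, y j * t j i := by
        rw [← Finset.sum_add_distrib]
        exact Finset.sum_congr rfl fun i _ => Finset.sum_add_distrib
      rw [h2, h1, ← two_mul]
      congr 1
      exact Finset.sum_congr rfl fun i _ => (Finset.mul_sum _ _ _).symm
    rw [hA, hB] at hdbl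
    have hC : ∑ i, y i * ∑ j, t i j ≤ s * (2 * s) := by
      rw [hsdef, Finset.sum_mul]
      exact Finset.sum_le_sum fun i _ => mul_le_mul_of_nonneg_left (ht2 i).le (hy i)
    linarith

end Pool.Agent.CluN
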