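import Pool.Agent.CluN.Propag

/-!
# All clusters: Laurent phenomenon and clusters with minimal denominators
-/

namespace Pool.Agent.CluN

variable {F : Type} [Field F] {n : ℕ}

theorem mutB_mutB (b : Fin n → Fin n → ℤ) (k : Fin n) : mutB (mutB b k) k = b := by
  funext i j
  have hk : ∀ i, mutB b k i k = -(b i k) := fun i => by
    unfold mutB; rw [if_pos (Or.inr rfl)]
  have hk' : ∀ j, mutB b k k j = -(b k j) := fun j => by
    unfold mutB; rw [if_pos (Or.inl rfl)]
  by_cases h : i = k ∨ j = k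
  · have h1 : mutB (mutB b k) k i j = -(mutB b k i j) := by
      conv_lhs => unfold mutB
      rw [if_pos h]
      rfl
    rw [h1]
    unfold mutB
    rw [if_pos h, neg_neg]
  · have h1 : mutB (mutB b k) k i j = mutB b k i j + max (mutB b k i k) 0 * max (mutB b k k j) 0
        - max (-(mutB b k i k)) 0 * max (-(mutB b k k j)) 0 := by
      conv_lhs => unfold mutB
      rw [if_neg h]
      rfl
    rw [h1, hk, hk', neg_neg, neg_neg]
    unfold mutB
    rw [if_neg h]
    ring

theorem Ck_newz (z : Fin n → F) (b : Fin n → Fin n → ℤ) (i : Fin n) :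
    Ck (newz z b i) i = Ck z i := by
  unfold Ck
  congr 1
  ext x
  constructor
  · rintro (⟨j, hj, rfl⟩ | ⟨j, hj, rfl⟩)
    · exact Or.inl ⟨j, hj, newz_of_ne z b hj⟩
    · exact Or.inr ⟨j, hj, by rw [newz_of_ne z b hj]⟩
  · rintro (⟨j, hj, rfl⟩ | ⟨j, hj, rfl⟩)
    · exact Or.inl ⟨j, hj, (newz_of_ne z b hj).symm⟩
    · exact Or.inr ⟨j, hj, by rw [newz_of_ne z b hj]⟩

theorem rhs_newz (z : Fin n → F) (b : Fin n → Fin n → ℤ) (i : Fin n) (hii : b i i = 0) :
    rhs (newz z b i) (mutB b i) i = rhs z b i := by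
  unfold rhs
  rw [add_comm]
  congr 1
  · refine Finset.prod_congr rfl fun j _ => ?_
    have : mutB b i j i = -(b j i) := by unfold mutB; rw [if_pos (Or.inr rfl)]
    rw [this, neg_neg]
    by_cases hj : j = i
    · rw [hj, hii]; simp
    · rw [newz_of_ne z b hj]
  · refine Finset.prod_congr rfl fun j _ => ?_
    have : mutB b i j i = -(b j i) := by unfold mutB; rw [if_pos (Or.inr rfl)]
    rw [this]
    by_cases hj : j = i
    · rw [hj, hii]; simp
    · rw [newz_of_ne z b hj]

theorem rhs_newz_div {z : Fin n → F} (hz : Ind z) (b : Fin n → Fin n → ℤ) (i : Fin n)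
    (hii : b i i = 0) : rhs (newz z b i) (mutB b i) i / newz z b i i = z i := by
  rw [rhs_newz z b i hii, newz_self]
  have h1 := hz.1 i
  have h2 := rhs_ne_zero hz b i
  field_simp

theorem newz_newz {z : Fin n → F} (hz : Ind z) (b : Fin n → Fin n → ℤ) (i : Fin n)
    (hii : b i i = 0) : newz (newz z b i) (mutB b i) i = z := by
  have h1 := rhs_newz_div hz b i hii
  funext j
  by_cases hj : j = i
  · rw [hj, newz_self, h1]
  · rw [newz_of_ne _ _ hj, newz_of_ne _ _ hj]

theorem W_self {z : Fin n → F} (hz : Ind z) (b : Fin n → Fin n → ℤ) (i : Fin n)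
    (hii : b i i = 0) : W (newz z b i) (mutB b i) i = W z b i := by
  unfold W
  rw [Ck_newz, rhs_newz_div hz b i hii, newz_self, Set.pair_comm]

theorem mutate_z (s : Seed F n) (i : Fin n) : (s.mutate i).z = newz s.z s.b i := rfl
theorem mutate_b (s : Seed F n) (i : Fin n) : (s.mutate i).b = mutB s.b i := rfl

theorem mutate_mutate (s : Seed F n) (hz : Ind s.z) (hs : IsSkew s.b) (i : Fin n) :
    (s.mutate i).mutate i = s := by
  have h1 : ((s.mutate i).mutate i).z = s.z := newz_newz hz s.b i (skew_diag hs i)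
  have h2 : ((s.mutate i).mutate i).b = s.b := mutB_mutB s.b i
  have key : ∀ t : Seed F n, t.z = s.z → t.b = s.b → t = s := by
    rintro ⟨z, b⟩ h1 h2
    cases s
    simp only at h1 h2
    rw [h1, h2]
  exact key _ h1 h2

/-- the upper bound at a seed -/
def Up (s : Seed F n) : Subring F := ⨅ k, W s.z s.b k

theorem mem_Up (s : Seed F n) (f : F) : f ∈ Up s ↔ ∀ k, f ∈ W s.z s.b k := by
  unfold Up; rw [Subring.mem_iInf]

/-- the standing assumptions on a seed -/
structure Fine (s : Seed F n) : Prop where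
  ind : Ind s.z
  skew : IsSkew s.b
  ne : ∀ i j, i ≠ j → s.b i j ≠ 0

theorem Up_le {s : Seed F n} (h : Fine s) (i : Fin n) : Up s ≤ Up (s.mutate i) := by
  intro f hf
  rw [mem_Up] at hf ⊢
  intro k
  by_cases hk : i = k
  · subst hk
    rw [mutate_z, mutate_b, W_self h.ind s.b i (skew_diag h.skew i)]
    exact hf i
  · exact propagate h.ind h.skew h.ne i k hk f (hf i) (hf k)

theorem Up_eq {s : Seed F n} (h : Fine s) (i : Fin n) (h' : Fine (s.mutate i)) :
    Up (s.mutate i) = Up s := by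
  refine le_antisymm ?_ (Up_le h i)
  have := Up_le h' i
  rwa [mutate_mutate s h.ind h.skew i] at this

variable {s₀ : Seed F n}

theorem fine_of_reachable (h0 : Ind s₀.z) (hs : IsSkew s₀.b)
    (hne : ∀ s, Reachable s₀ s → ∀ i j, i ≠ j → s.b i j ≠ 0) (s : Seed F n)
    (h : Reachable s₀ s) : Fine s := by
  induction h with
  | init => exact ⟨h0, hs, hne _ Reachable.init⟩
  | step s k hr ih =>
    exact ⟨ind_newz ih.ind s.b k (skew_diag ih.skew k), isSkew_mutB ih.skew k,
      hne _ (Reachable.step s k hr)⟩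

theorem Up_reachable (hF : ∀ s, Reachable s₀ s → Fine s) (s : Seed F n) (h : Reachable s₀ s) :
    Up s = Up s₀ := by
  induction h with
  | init => rfl
  | step s k hr ih => rw [Up_eq (hF s hr) k (hF _ (Reachable.step s k hr)), ih]

theorem z_mem_Up (s : Seed F n) (j : Fin n) : s.z j ∈ Up s := by
  rw [mem_Up]
  intro k
  by_cases hj : j = k
  · rw [hj]; exact z_mem_W _ _ _
  · exact Ck_le_W _ _ _ (Subring.subset_closure (Or.inl ⟨j, hj, rfl⟩))

/-- the Laurent phenomenon -/
theorem clusterAlgebra_le (hF : ∀ s, Reachable s₀ s → Fine s) (s : Seed F n)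
    (h : Reachable s₀ s) : clusterAlgebra s₀ ≤ Up s := by
  rw [Up_reachable hF s h]
  unfold clusterAlgebra
  rw [Subring.closure_le]
  rintro f ⟨s', hs', i, rfl⟩
  have := z_mem_Up s' i
  rw [Up_reachable hF s' hs'] at this
  exact this

theorem mem_TT_of_mem_Up {s : Seed F n} (h : Fine s) (f : F) (hf : f ∈ Up s) (k : Fin n) :
    f ∈ TT (Ck s.z k) (s.z k) ⟨rhs s.z s.b k, rhs_mem_Ck _ k (skew_diag h.skew k)⟩ := by
  rw [W_eq_TT s.z s.b k (h.ind.1 k)]
  exact (mem_Up s f).1 hf k

/-- exchange of top and lowest degree -/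
theorem ordGe_mutate {s : Seed F n} (h : Fine s) (f : F) (hf : f ∈ Up s) (i : Fin n) (E : ℕ)
    (hE : DegLe (Ck s.z i) (s.z i) E f) :
    OrdGe (Ck (s.mutate i).z i) ((s.mutate i).z i) E f := by
  rw [mutate_z, Ck_newz, newz_self]
  refine ordGe_of_degLe (pair_of_ind h.ind i) ⟨rhs s.z s.b i, rhs_mem_Ck _ i (skew_diag h.skew i)⟩
    ?_ E f (mem_TT_of_mem_Up h f hf i) hE
  have := h.ind.1 i
  change s.z i * (rhs s.z s.b i / s.z i) = rhs s.z s.b i
  field_simp

/-- a cluster in which the denominators are minimal -/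
theorem exists_min (hF : ∀ s, Reachable s₀ s → Fine s) (f : F) (hf : f ∈ clusterAlgebra s₀) :
    ∃ (s : Seed F n) (D : Fin n → ℕ), Reachable s₀ s ∧
      (∀ k, OrdGe (Ck s.z k) (s.z k) (D k) f) ∧
      (∀ i, 1 ≤ D i → ¬ DegLe (Ck s.z i) (s.z i) (D i - 1) f) ∧
      (∀ i, 1 ≤ D i → ¬ DegLe (Ck (s.mutate i).z i) ((s.mutate i).z i) (D i - 1) f) := by
  classical
  have hex : ∃ N : ℕ, ∃ (s : Seed F n) (D : Fin n → ℕ), Reachable s₀ s ∧
      (∀ k, OrdGe (Ck s.z k) (s.z k) (D k) f) ∧ ∑ j, D j = N := by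
    have h0 := hF s₀ Reachable.init
    have h1 : ∀ k, ∃ E, OrdGe (Ck s₀.z k) (s₀.z k) E f := fun k =>
      exists_ordGe (TT_le_TT_one _ (mem_TT_of_mem_Up h0 f
        (clusterAlgebra_le hF s₀ Reachable.init hf) k))
    choose D hD using h1
    exact ⟨_, s₀, D, Reachable.init, hD, rfl⟩
  obtain ⟨s, D, hs, hD, hsum⟩ := Nat.find_spec hex
  have hmin : ∀ (s' : Seed F n) (D' : Fin n → ℕ), Reachable s₀ s' →
      (∀ k, OrdGe (Ck s'.z k) (s'.z k) (D' k) f) → ∑ j, D j ≤ ∑ j, D' j := by
    intro s' D' h1 h2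
    rw [hsum]
    exact Nat.find_min' hex ⟨s', D', h1, h2, rfl⟩
  have hlt : ∀ i, 1 ≤ D i → ∑ j, Function.update D i (D i - 1) j < ∑ j, D j := by
    intro i hi
    apply Finset.sum_lt_sum
    · intro j _
      by_cases hj : j = i
      · rw [hj, Function.update_self]; omega
      · rw [Function.update_of_ne hj]
    · exact ⟨i, Finset.mem_univ i, by rw [Function.update_self]; omega⟩
  have hFs := hF s hs
  have hfU := clusterAlgebra_le hF s hs hf
  have hno : ∀ i, 1 ≤ D i → ¬ OrdGe (Ck s.z i) (s.z i) (D i - 1) f := by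
    intro i hi h
    refine absurd (hmin s (Function.update D i (D i - 1)) hs fun k => ?_) (not_le.2 (hlt i hi))
    by_cases hk : k = i
    · subst hk; rw [Function.update_self]; exact h
    · rw [Function.update_of_ne hk]; exact hD k
  refine ⟨s, D, hs, hD, fun i hi h => ?_, fun i hi h => ?_⟩
  · refine absurd (hmin (s.mutate i) (Function.update D i (D i - 1)) (Reachable.step s i hs)
      fun k => ?_) (not_le.2 (hlt i hi))
    by_cases hk : k = i
    · subst hk
      rw [Function.update_self]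
      exact ordGe_mutate hFs f hfU k _ h
    · rw [Function.update_of_ne hk]
      exact ordGe_newz hFs.ind i k (Ne.symm hk) (skew_diag hFs.skew i) (hFs.ne k i hk) f
        ((mem_Up s f).1 hfU i) _ (hD k)
  · have hF' := hF _ (Reachable.step s i hs)
    have h1 := ordGe_mutate hF' f (Up_le hFs i hfU) i _ h
    rw [mutate_mutate s hFs.ind hFs.skew i] at h1
    exact hno i hi h1

/-- the denominators in the other directions at the adjacent seed -/
theorem ordGe_mutate_ne {s : Seed F n} (h : Fine s) (f : F) (hf : f ∈ Up s) (i k : Fin n)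
    (hik : k ≠ i) (E : ℕ) (hE : OrdGe (Ck s.z k) (s.z k) E f) :
    OrdGe (Ck (s.mutate i).z k) ((s.mutate i).z k) E f :=
  ordGe_newz h.ind i k (Ne.symm hik) (skew_diag h.skew i) (h.ne k i hik) f
    ((mem_Up s f).1 hf i) _ hE

end Pool.Agent.CluN
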