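import Pool.Agent.CluN.Defs

/-!
# Laurent polynomials in one variable over a subring of a field
-/

namespace Pool.Agent.CluN

open Polynomial

variable {F : Type} [Field F] {C : Subring F} {y : F}

/-- the subring of the elements `f` with `InT C y Q f` -/
def TT (C : Subring F) (y : F) (Q : C) : Subring F where
  carrier := {f | InT C y Q f}
  zero_mem' := ⟨0, 0, by simp, by simp⟩
  one_mem' := ⟨0, 1, by simp, by simp⟩
  add_mem' := by
    rintro f f' ⟨M, p, hp, hΩ⟩ ⟨M', p', hp', hΩ'⟩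
    refine ⟨M + M', X ^ M' * p + X ^ M * p', ?_, fun s => ?_⟩
    · rw [eval₂_add, eval₂_mul, eval₂_mul, eval₂_pow, eval₂_pow, eval₂_X, ← hp, ← hp', pow_add]
      ring
    · rw [coeff_add, coeff_X_pow_mul', coeff_X_pow_mul']
      apply dvd_add
      · split_ifs with h
        · have := hΩ (s - M')
          rwa [show M - (s - M') = M + M' - s by omega] at this
        · exact dvd_zero _
      · split_ifs with h
        · have := hΩ' (s - M)
          rwa [show M' - (s - M) = M + M' - s by omega] at this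
        · exact dvd_zero _
  mul_mem' := by
    rintro f f' ⟨M, p, hp, hΩ⟩ ⟨M', p', hp', hΩ'⟩
    refine ⟨M + M', p * p', ?_, fun s => ?_⟩
    · rw [eval₂_mul, ← hp, ← hp', pow_add]; ring
    · rw [coeff_mul]
      apply Finset.dvd_sum
      rintro ⟨a, b⟩ hab
      have hab' : a + b = s := by simpa using hab
      refine (pow_dvd_pow Q (show M + M' - s ≤ (M - a) + (M' - b) by omega)).trans ?_
      rw [pow_add]
      exact mul_dvd_mul (hΩ a) (hΩ' b)
  neg_mem' := by
    rintro f ⟨M, p, hp, hΩ⟩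
    refine ⟨M, -p, ?_, fun s => ?_⟩
    · rw [eval₂_neg, ← hp]; ring
    · rw [coeff_neg]; exact (dvd_neg).2 (hΩ s)

theorem mem_TT {Q : C} {f : F} : f ∈ TT C y Q ↔ InT C y Q f := Iff.rfl

theorem C_le_TT (Q : C) : C ≤ TT C y Q := fun c hc =>
  ⟨0, Polynomial.C ⟨c, hc⟩, by simp, by simp⟩

theorem y_mem_TT (Q : C) : y ∈ TT C y Q := ⟨0, X, by simp, by simp⟩

theorem w_mem_TT (Q : C) {w : F} (h : y * w = Q) : w ∈ TT C y Q := by
  refine ⟨1, Polynomial.C Q, by simpa using h, fun s => ?_⟩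
  rcases s with _ | s
  · simp
  · simp

theorem inv_mem_TT_one (hy : y ≠ 0) : y⁻¹ ∈ TT C y 1 :=
  ⟨1, 1, by simp [hy], by simp⟩

theorem TT_le_TT_one (Q : C) : TT C y Q ≤ TT C y 1 := by
  rintro f ⟨M, p, hp, _⟩
  exact ⟨M, p, hp, by simp⟩

theorem closure_le_TT (Q : C) {w : F} (h : y * w = Q) :
    Subring.closure ((C : Set F) ∪ {y, w}) ≤ TT C y Q := by
  rw [Subring.closure_le]
  rintro f (hf | hf | hf)
  · exact C_le_TT Q hf
  · rw [hf]; exact y_mem_TT Q
  · rw [hf]; exact w_mem_TT Q h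

theorem TT_le_closure (Q : C) {w : F} (hy : y ≠ 0) (h : y * w = Q) :
    TT C y Q ≤ Subring.closure ((C : Set F) ∪ {y, w}) := by
  rintro f ⟨M, p, hp, hΩ⟩
  choose c hc using hΩ
  have hf : f = ∑ s ∈ Finset.range (p.natDegree + 1),
      (c s : F) * (w ^ (M - s) * y ^ (s - M)) := by
    apply mul_left_cancel₀ (pow_ne_zero M hy)
    rw [hp, eval₂_eq_sum_range, Finset.mul_sum]
    refine Finset.sum_congr rfl fun s _ => ?_
    have h1 : (C.subtype (p.coeff s) : F) = (y * w) ^ (M - s) * (c s : F) := by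
      rw [hc s, h]; simp
    rw [h1, mul_pow]
    rcases le_total s M with hs | hs
    · have e1 : s - M = 0 := by omega
      have e2 : y ^ M = y ^ s * y ^ (M - s) := by rw [← pow_add]; congr 1; omega
      rw [e1, e2]; ring
    · have e1 : M - s = 0 := by omega
      have e2 : y ^ s = y ^ M * y ^ (s - M) := by rw [← pow_add]; congr 1; omega
      rw [e1, e2]; ring
  rw [hf]
  have hC : ∀ x : C, (x : F) ∈ Subring.closure ((C : Set F) ∪ {y, w}) := fun x =>
    Subring.subset_closure (Or.inl x.2)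
  have hy' : y ∈ Subring.closure ((C : Set F) ∪ {y, w}) := Subring.subset_closure (by simp)
  have hw' : w ∈ Subring.closure ((C : Set F) ∪ {y, w}) := Subring.subset_closure (by simp)
  exact Subring.sum_mem _ fun s _ => mul_mem (hC _) (mul_mem (pow_mem hw' _) (pow_mem hy' _))

theorem TT_eq_closure (Q : C) {w : F} (hy : y ≠ 0) (h : y * w = Q) :
    TT C y Q = Subring.closure ((C : Set F) ∪ {y, w}) :=
  le_antisymm (TT_le_closure Q hy h) (closure_le_TT Q h)

/-- uniqueness -/
theorem Pair.cancel (hP : Pair C y) {f : F} {M M' : ℕ} {p p' : C[X]}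
    (h : y ^ M * f = eval₂ C.subtype y p) (h' : y ^ M' * f = eval₂ C.subtype y p') :
    X ^ M' * p = X ^ M * p' := by
  apply hP.2
  rw [eval₂_mul, eval₂_mul, eval₂_pow, eval₂_pow, eval₂_X, ← h, ← h']
  ring

/-- an element whose product with `r + q y ^ b`, `r` a unit, lies in `TT C y Q` lies there -/
theorem sat (hP : Pair C y) (Q : C) (r r' q : C) (hr : r' * r = 1) (b : ℕ) (hb : 1 ≤ b) (f : F)
    (hf : f ∈ TT C y 1) (h : ((r : F) + q * y ^ b) * f ∈ TT C y Q) : f ∈ TT C y Q := by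
  obtain ⟨M, p, hp, -⟩ := hf
  obtain ⟨M', p', hp', hΩ'⟩ := h
  refine ⟨M, p, hp, ?_⟩
  set U : C[X] := Polynomial.C r + Polynomial.C q * X ^ b with hU
  have h1 : y ^ M * (((r : F) + q * y ^ b) * f) = eval₂ C.subtype y (U * p) := by
    rw [eval₂_mul, ← hp, hU]
    simp only [eval₂_add, eval₂_mul, eval₂_C, eval₂_pow, eval₂_X, Subring.subtype_apply]
    ring
  have h2 := hP.cancel h1 hp'
  have h3 : ∀ s, Q ^ (M - s) ∣ (U * p).coeff s := by
    intro s
    have h4 : (U * p).coeff s = (X ^ M' * (U * p)).coeff (s + M') := by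
      rw [coeff_X_pow_mul]
    rw [h4, h2, coeff_X_pow_mul']
    split_ifs with h5
    · have := hΩ' (s + M' - M)
      refine (pow_dvd_pow Q ?_).trans this
      omega
    · exact dvd_zero _
  intro s
  induction s using Nat.strong_induction_on with
  | _ s ih =>
    have h5 : (U * p).coeff s = r * p.coeff s + q * (if b ≤ s then p.coeff (s - b) else 0) := by
      rw [hU, add_mul, coeff_add, coeff_C_mul, mul_assoc, coeff_C_mul, coeff_X_pow_mul']
    have h6 : Q ^ (M - s) ∣ q * (if b ≤ s then p.coeff (s - b) else 0) := by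
      split_ifs with h7
      · exact ((pow_dvd_pow Q (by omega)).trans (ih (s - b) (by omega))).mul_left _
      · simp
    have h7 : Q ^ (M - s) ∣ r * p.coeff s := by
      have := h3 s
      rw [h5] at this
      exact (dvd_add_left h6).1 this
    have h8 : p.coeff s = r' * (r * p.coeff s) := by rw [← mul_assoc, hr, one_mul]
    rw [h8]
    exact h7.mul_left _

theorem sat_pow (hP : Pair C y) (Q : C) (r r' q : C) (hr : r' * r = 1) (b : ℕ) (hb : 1 ≤ b) (K : ℕ)
    (f : F) (hf : f ∈ TT C y 1) (h : ((r : F) + q * y ^ b) ^ K * f ∈ TT C y Q) : f ∈ TT C y Q := by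
  induction K with
  | zero => simpa using h
  | succ K ih =>
    apply ih
    have hu : ((r : F) + q * y ^ b) ∈ TT C y 1 :=
      add_mem (C_le_TT _ r.2) (mul_mem (C_le_TT _ q.2) (pow_mem (y_mem_TT _) _))
    apply sat hP Q r r' q hr b hb _ (mul_mem (pow_mem hu _) hf)
    rw [← mul_assoc, ← pow_succ']
    exact h

theorem ordGe_iff_zero (E : ℕ) (f : F) : OrdGe C y E f ↔ y ^ E * f ∈ (eval₂RingHom C.subtype y).range := by
  constructor
  · rintro ⟨p, hp⟩; exact ⟨p, hp.symm⟩
  · rintro ⟨p, hp⟩; exact ⟨p, hp.symm⟩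

theorem OrdGe.mono {E E' : ℕ} (hE : E ≤ E') {f : F} (h : OrdGe C y E f) : OrdGe C y E' f := by
  obtain ⟨p, hp⟩ := h
  refine ⟨X ^ (E' - E) * p, ?_⟩
  rw [eval₂_mul, eval₂_pow, eval₂_X, ← hp, ← mul_assoc, ← pow_add]
  congr 2; omega

theorem exists_ordGe {f : F} (h : f ∈ TT C y 1) : ∃ E, OrdGe C y E f := by
  obtain ⟨M, p, hp, -⟩ := h
  exact ⟨M, p, hp⟩

/-- `TT C y 0` is the ring of polynomials -/
theorem mem_TT_zero (hy : y ≠ 0) (f : F) : f ∈ TT C y 0 ↔ OrdGe C y 0 f := by
  constructor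
  · rintro ⟨M, p, hp, hΩ⟩
    have h0 : ∀ s, s < M → p.coeff s = 0 := by
      intro s hs
      have := hΩ s
      rw [zero_pow (by omega)] at this
      exact zero_dvd_iff.1 this
    have h1 : X ^ M ∣ p := X_pow_dvd_iff.2 h0
    obtain ⟨q, rfl⟩ := h1
    refine ⟨q, ?_⟩
    rw [eval₂_mul, eval₂_pow, eval₂_X] at hp
    rw [pow_zero, one_mul]
    exact mul_left_cancel₀ (pow_ne_zero M hy) hp
  · rintro ⟨p, hp⟩
    exact ⟨0, p, hp, by simp⟩

/-- exchange of `y` and `w = Q / y`: the top degree in `y` is the lowest degree in `w` -/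
theorem ordGe_of_degLe (hP : Pair C y) (Q : C) {w : F} (h : y * w = Q) (E : ℕ) (f : F)
    (hf : f ∈ TT C y Q) (hE : DegLe C y E f) : OrdGe C w E f := by
  obtain ⟨M, p, hp, hΩ⟩ := hf
  obtain ⟨M', p', hp', hd⟩ := hE
  have hy := hP.1
  have h1 := hP.cancel hp hp'
  have hdeg : p.natDegree ≤ M + E := by
    by_cases hp0 : p = 0
    · simp [hp0]
    · have hp0' : p' ≠ 0 := by
        rintro rfl
        rw [mul_zero] at h1
        exact mul_ne_zero (pow_ne_zero _ X_ne_zero) hp0 h1
      have h2 := congrArg natDegree h1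
      rw [natDegree_mul (pow_ne_zero _ X_ne_zero) hp0, natDegree_mul (pow_ne_zero _ X_ne_zero) hp0',
        natDegree_X_pow, natDegree_X_pow] at h2
      omega
  choose c hc using hΩ
  rw [ordGe_iff_zero]
  have hf : w ^ E * f = ∑ s ∈ Finset.range (p.natDegree + 1),
      (c s : F) * (w ^ (M - s) * ((Q : F) ^ (s - M) * w ^ (E - (s - M)))) := by
    apply mul_left_cancel₀ (pow_ne_zero M hy)
    rw [mul_left_comm, hp, eval₂_eq_sum_range, Finset.mul_sum, Finset.mul_sum]
    refine Finset.sum_congr rfl fun s hs => ?_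
    have hs' : s ≤ M + E := by have := Finset.mem_range.1 hs; omega
    have h1 : (C.subtype (p.coeff s) : F) = (y * w) ^ (M - s) * (c s : F) := by
      rw [hc s, h]; simp
    rw [h1, mul_pow, ← h]
    rcases le_total s M with hs | hs
    · have e1 : s - M = 0 := by omega
      have e2 : y ^ M = y ^ s * y ^ (M - s) := by rw [← pow_add]; congr 1; omega
      rw [e1, e2, Nat.sub_zero]; ring
    · have e1 : M - s = 0 := by omega
      have e2 : y ^ s = y ^ M * y ^ (s - M) := by rw [← pow_add]; congr 1; omega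
      have e3 : w ^ E = w ^ (s - M) * w ^ (E - (s - M)) := by rw [← pow_add]; congr 1; omega
      rw [e1, e2, e3, mul_pow]; ring
  rw [hf]
  have hC : ∀ x : C, (x : F) ∈ (eval₂RingHom C.subtype w).range := fun x =>
    ⟨Polynomial.C x, by simp⟩
  have hw : w ∈ (eval₂RingHom C.subtype w).range := ⟨X, by simp⟩
  exact Subring.sum_mem _ fun s _ => mul_mem (hC _) (mul_mem (pow_mem hw _)
    (mul_mem (pow_mem (hC Q) _) (pow_mem hw _)))

end Pool.Agent.CluN
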