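import Mathlib

/-!
# Cluster algebras without coefficients, of any rank, and their good bases

Seeds, mutation, cluster algebra, good bases as in Fomin-Zelevinsky and as in the question.
-/

namespace Pool.Agent.CluN

/-- A (labelled) seed in a field: cluster and exchange matrix. -/
structure Seed (F : Type) (n : ℕ) where
  z : Fin n → F
  b : Fin n → Fin n → ℤ

variable {F : Type} [Field F] {n : ℕ}

/-- the right-hand side of the exchange relation in direction `k` -/
def rhs (z : Fin n → F) (b : Fin n → Fin n → ℤ) (k : Fin n) : F :=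
  ∏ i, z i ^ (b i k).toNat + ∏ i, z i ^ (-(b i k)).toNat

/-- mutation of the exchange matrix in direction `k` -/
def mutB (b : Fin n → Fin n → ℤ) (k : Fin n) : Fin n → Fin n → ℤ := fun i j =>
  if i = k ∨ j = k then - b i j
  else b i j + max (b i k) 0 * max (b k j) 0 - max (-(b i k)) 0 * max (-(b k j)) 0

/-- mutation of a seed in direction `k` -/
noncomputable def Seed.mutate (s : Seed F n) (k : Fin n) : Seed F n where
  z := Function.update s.z k (rhs s.z s.b k / s.z k)
  b := mutB s.b k

/-- seeds obtained from `s₀` by finitely many mutations -/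
inductive Reachable (s₀ : Seed F n) : Seed F n → Prop
  | init : Reachable s₀ s₀
  | step (s : Seed F n) (k : Fin n) : Reachable s₀ s → Reachable s₀ (s.mutate k)

/-- skew-symmetrizable matrices -/
def IsSkew (b : Fin n → Fin n → ℤ) : Prop :=
  ∃ d : Fin n → ℤ, (∀ i, 0 < d i) ∧ ∀ i j, d i * b i j = -(d j * b j i)

/-- `s₀` is a seed in the sense of the theory -/
def IsSeed (s₀ : Seed F n) : Prop := AlgebraicIndependent ℤ s₀.z ∧ IsSkew s₀.b

/-- all off-diagonal entries are nonzero and, if `n ≥ 3`, the products `|b i j * b j i|` are at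
least `9` -/
def Abundant (b : Fin n → Fin n → ℤ) : Prop :=
  ∀ i j, i ≠ j → b i j ≠ 0 ∧ (n ≤ 2 ∨ 9 ≤ |b i j * b j i|)

/-- no oriented cycles -/
def Acyclic (b : Fin n → Fin n → ℤ) : Prop := ∃ ρ : Fin n → ℕ, ∀ i j, 0 < b i j → ρ i < ρ j

/-- matrices obtained by finitely many mutations -/
inductive MatReach (b₀ : Fin n → Fin n → ℤ) : (Fin n → Fin n → ℤ) → Prop
  | init : MatReach b₀ b₀
  | step (b : Fin n → Fin n → ℤ) (k : Fin n) : MatReach b₀ b → MatReach b₀ (mutB b k)

/-- Cluster variables. -/
def IsClusterVariable (s₀ : Seed F n) (f : F) : Prop := ∃ s, Reachable s₀ s ∧ ∃ i, f = s.z i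

/-- Cluster monomials. -/
def IsClusterMonomial (s₀ : Seed F n) (f : F) : Prop :=
  ∃ s, Reachable s₀ s ∧ ∃ e : Fin n → ℕ, f = ∏ i, s.z i ^ e i

/-- The cluster algebra: the subring generated by all cluster variables. -/
def clusterAlgebra (s₀ : Seed F n) : Subring F := Subring.closure {f | IsClusterVariable s₀ f}

/-- A good basis: a `ℤ`-basis containing all cluster monomials, with nonnegative structure
constants. -/
structure IsGoodBasis (s₀ : Seed F n) {ι : Type}
    (β : Module.Basis ι ℤ (clusterAlgebra s₀)) : Prop where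
  monomials : ∀ f : clusterAlgebra s₀, IsClusterMonomial s₀ (f : F) → f ∈ Set.range β
  nonneg : ∀ i j k : ι, 0 ≤ β.repr (β i * β j) k

/-- A basis element is real if its square lies in the basis. -/
def IsReal {s₀ : Seed F n} {ι : Type} (β : Module.Basis ι ℤ (clusterAlgebra s₀)) (i : ι) : Prop :=
  β i * β i ∈ Set.range β

/-- A basis element is indecomposable if, whenever it is a product of two elements of the basis, one
of them is a unit of the cluster algebra. -/
def IsIndecomposable {s₀ : Seed F n} {ι : Type} (β : Module.Basis ι ℤ (clusterAlgebra s₀)) (i : ι) :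
    Prop :=
  ∀ j k, β i = β j * β k → IsUnit (β j) ∨ IsUnit (β k)

/-- The superunitary region of a basis. -/
def superunitary {s₀ : Seed F n} {ι : Type} (β : Module.Basis ι ℤ (clusterAlgebra s₀)) :
    Set (clusterAlgebra s₀ →+* ℝ) :=
  {p | ∀ i, 1 ≤ p (β i)}

/-- The other side of the question: positive on all cluster variables and at least `1` on all real
indecomposable elements of the basis. -/
def realSuperunitary {s₀ : Seed F n} {ι : Type} (β : Module.Basis ι ℤ (clusterAlgebra s₀)) :
    Set (clusterAlgebra s₀ →+* ℝ) :=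
  {p | (∀ x : clusterAlgebra s₀, IsClusterVariable s₀ (x : F) → 0 < p x) ∧
    ∀ i, IsReal β i → IsIndecomposable β i → 1 ≤ p (β i)}

/-! ### Laurent monomials -/

/-- the Laurent monomial with exponent `m` -/
noncomputable def mon (z : Fin n → F) (m : Fin n → ℤ) : F := ∏ i, z i ^ m i

/-- all entries are nonzero and the Laurent monomials are linearly independent over `ℤ` -/
def Ind (z : Fin n → F) : Prop := (∀ i, z i ≠ 0) ∧ LinearIndependent ℤ (mon z)

/-- the Laurent polynomials in the variables `z j`, `j ≠ k` -/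
def Ck (z : Fin n → F) (k : Fin n) : Subring F :=
  Subring.closure ({x | ∃ j, j ≠ k ∧ x = z j} ∪ {x | ∃ j, j ≠ k ∧ x = (z j)⁻¹})

/-- `y` is transcendental over the subring `C` and nonzero -/
def Pair (C : Subring F) (y : F) : Prop :=
  y ≠ 0 ∧ Function.Injective (Polynomial.eval₂ C.subtype y)

/-- `f` is a Laurent polynomial in `y` over `C`, and the coefficient of `y ^ (-l)`, `l > 0`, is
divisible by `Q ^ l`. -/
def InT (C : Subring F) (y : F) (Q : C) (f : F) : Prop :=
  ∃ (M : ℕ) (p : Polynomial C), y ^ M * f = Polynomial.eval₂ C.subtype y p ∧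
    ∀ s, Q ^ (M - s) ∣ p.coeff s

/-- `f` is a Laurent polynomial in `y` over `C` without the powers `y ^ (-l)`, `l > E` -/
def OrdGe (C : Subring F) (y : F) (E : ℕ) (f : F) : Prop :=
  ∃ p : Polynomial C, y ^ E * f = Polynomial.eval₂ C.subtype y p

/-- `f` is a Laurent polynomial in `y` over `C` without the powers `y ^ l`, `l > E` -/
def DegLe (C : Subring F) (y : F) (E : ℕ) (f : F) : Prop :=
  ∃ (M : ℕ) (p : Polynomial C), y ^ M * f = Polynomial.eval₂ C.subtype y p ∧
    p.natDegree ≤ M + E

end Pool.Agent.CluN
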