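import Pool.Agent.CluN.Pos

/-!
# Cluster variables are real and indecomposable
-/

namespace Pool.Agent.CluN

variable {F : Type} [Field F] {n : ℕ} {s₀ : Seed F n} {ι : Type}
  {β : Module.Basis ι ℤ (clusterAlgebra s₀)}

theorem cvar_real (hβ : IsGoodBasis s₀ β) (s : Seed F n) (hs : Reachable s₀ s) (j : Fin n) (i : ι)
    (hi : β i = cvar s₀ s hs j) : IsReal β i := by
  classical
  refine hβ.monomials _ ⟨s, hs, fun l => if l = j then 2 else 0, ?_⟩
  rw [hi, Subring.coe_mul]
  rw [Finset.prod_eq_single j]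
  · simp only [if_true]
    rw [pow_two]
    rfl
  · intro b _ hb
    simp only [if_neg hb, pow_zero]
  · intro h
    exact absurd (Finset.mem_univ j) h

/-- sum of the coefficients -/
private noncomputable def sg (g : (Fin n → ℤ) →₀ ℤ) : ℤ :=
  Finsupp.linearCombination ℤ (fun _ : Fin n → ℤ => (1 : ℤ)) g

private theorem lc_mul_mon {z : Fin n → F} (hz : ∀ i, z i ≠ 0) (u : Fin n → ℤ)
    (g : (Fin n → ℤ) →₀ ℤ) :
    lc z (Finsupp.mapDomain (fun m => m + u) g) = lc z g * mon z u := by
  unfold lc
  rw [Finsupp.linearCombination_mapDomain, Finsupp.linearCombination_apply,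
    Finsupp.linearCombination_apply, Finsupp.sum, Finsupp.sum, Finset.sum_mul]
  apply Finset.sum_congr rfl
  intro m _
  rw [Function.comp_apply, mon_add hz, smul_mul_assoc]

private theorem lc_add (z : Fin n → F) (g g' : (Fin n → ℤ) →₀ ℤ) :
    lc z (g + g') = lc z g + lc z g' := by
  unfold lc
  rw [map_add]

private theorem lc_single (z : Fin n → F) (m : Fin n → ℤ) : lc z (Finsupp.single m 1) = mon z m := by
  unfold lc
  rw [Finsupp.linearCombination_single, one_smul]

private theorem pow_mul_lc {z : Fin n → F} (hz : ∀ i, z i ≠ 0) (u v : Fin n → ℤ) (r : ℕ)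
    (g : (Fin n → ℤ) →₀ ℤ) :
    ∃ G, (mon z u + mon z v) ^ r * lc z g = lc z G ∧ sg G = 2 ^ r * sg g := by
  induction r with
  | zero => exact ⟨g, by rw [pow_zero, one_mul], by rw [pow_zero, one_mul]⟩
  | succ r ih =>
    obtain ⟨G, h1, h2⟩ := ih
    refine ⟨Finsupp.mapDomain (fun m => m + u) G + Finsupp.mapDomain (fun m => m + v) G, ?_, ?_⟩
    · rw [lc_add, lc_mul_mon hz, lc_mul_mon hz, ← h1, pow_succ]
      ring
    · have h3 : sg (Finsupp.mapDomain (fun m => m + u) G + Finsupp.mapDomain (fun m => m + v) G) =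
          sg G + sg G := by
        unfold sg
        rw [map_add, Finsupp.linearCombination_mapDomain, Finsupp.linearCombination_mapDomain]
        rfl
      rw [h3, h2, pow_succ]
      ring

/-- a Laurent monomial in the cluster algebra has nonnegative exponents -/
private theorem exp_nonneg (hind : ∀ s, Reachable s₀ s → Ind s.z)
    (hd : ∀ s, Reachable s₀ s → ∀ i, s.b i i = 0)
    (hL : ∀ s, Reachable s₀ s → ∀ f : clusterAlgebra s₀, ∃ g, (f : F) = lc s.z g)
    (s : Seed F n) (hs : Reachable s₀ s) (x : clusterAlgebra s₀) (m : Fin n → ℤ)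
    (hx : (x : F) = mon s.z m) (l : Fin n) : 0 ≤ m l := by
  classical
  by_contra hneg
  obtain ⟨r, hr⟩ : ∃ r : ℕ, m l = -(r : ℤ) := ⟨(-(m l)).toNat, by omega⟩
  have hr1 : r ≠ 0 := by omega
  have hs' : Reachable s₀ (s.mutate l) := Reachable.step s l hs
  have hz' := hind _ hs'
  obtain ⟨g, hg⟩ := hL _ hs' x
  obtain ⟨P, hP⟩ : ∃ P, P = rhs s.z s.b l := ⟨_, rfl⟩
  have hz'def : (s.mutate l).z = Function.update s.z l (P / s.z l) := by rw [hP]; rfl
  have hne : ∀ i, i ≠ l → (s.mutate l).z i = s.z i := fun i hi => by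
    rw [hz'def, Function.update_of_ne hi]
  have hl : (s.mutate l).z l = P / s.z l := by rw [hz'def, Function.update_self]
  have hPmon : P = mon (s.mutate l).z (fun i => ((s.b i l).toNat : ℤ)) +
      mon (s.mutate l).z (fun i => ((-(s.b i l)).toNat : ℤ)) := by
    rw [hP]
    unfold rhs mon
    congr 1
    · refine Finset.prod_congr rfl fun i _ => ?_
      rw [zpow_natCast]
      by_cases hi : i = l
      · rw [hi, hd s hs l]
        simp
      · rw [hne i hi]
    · refine Finset.prod_congr rfl fun i _ => ?_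
      rw [zpow_natCast]
      by_cases hi : i = l
      · rw [hi, hd s hs l]
        simp
      · rw [hne i hi]
  have hx' : P ^ r * (x : F) = mon (s.mutate l).z (Function.update m l (r : ℤ)) := by
    rw [hx]
    unfold mon
    rw [← Finset.mul_prod_erase _ _ (Finset.mem_univ l),
      ← Finset.mul_prod_erase Finset.univ
        (fun i => (s.mutate l).z i ^ Function.update m l (r : ℤ) i) (Finset.mem_univ l)]
    rw [Function.update_self, hl, hr, zpow_neg, zpow_natCast, zpow_natCast, div_pow, ← mul_assoc,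
      ← div_eq_mul_inv]
    congr 1
    refine Finset.prod_congr rfl fun i hi => ?_
    rw [Function.update_of_ne (Finset.ne_of_mem_erase hi), hne i (Finset.ne_of_mem_erase hi)]
  obtain ⟨G, h1, h2⟩ := pow_mul_lc hz'.1 (fun i => ((s.b i l).toNat : ℤ))
    (fun i => ((-(s.b i l)).toNat : ℤ)) r g
  rw [← hg, ← hPmon, hx', ← lc_single] at h1
  have h3 : Finsupp.single (Function.update m l (r : ℤ)) 1 = G := hz'.2 h1
  have h4 : sg G = 1 := by
    rw [← h3]
    unfold sg
    rw [Finsupp.linearCombination_single]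
    simp
  rw [h4] at h2
  have h5 : (2 : ℤ) ∣ 1 := by
    rw [h2]
    exact Dvd.dvd.mul_right (dvd_pow_self 2 hr1) _
  omega

private theorem single_of_mul {z : Fin n → F} (hz : Ind z) (g g' : (Fin n → ℤ) →₀ ℤ)
    (hg : ∀ m, 0 ≤ g m) (hg' : ∀ m, 0 ≤ g' m) (e : Fin n → ℤ) (h : lc z g * lc z g' = mon z e) :
    ∃ m, lc z g = mon z m ∧ lc z g' = mon z (e - m) := by
  classical
  have hmon : mon z e ≠ 0 := Finset.prod_ne_zero_iff.2 fun i _ => zpow_ne_zero _ (hz.1 i)
  obtain ⟨G, hGdef⟩ : ∃ G : (Fin n → ℤ) →₀ ℤ,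
    G = ∑ m ∈ g.support, g m • Finsupp.mapDomain (fun m' => m' + m) g' := ⟨_, rfl⟩
  have h1 : lc z G = lc z g * lc z g' := by
    have h2 : lc z G = ∑ m ∈ g.support, g m • (lc z g' * mon z m) := by
      rw [hGdef]
      have h3 : lc z (∑ m ∈ g.support, g m • Finsupp.mapDomain (fun m' => m' + m) g') =
          ∑ m ∈ g.support, g m • lc z (Finsupp.mapDomain (fun m' => m' + m) g') := by
        unfold lc
        rw [map_sum]
        exact Finset.sum_congr rfl fun m _ => map_zsmul _ _ _
      rw [h3]
      exact Finset.sum_congr rfl fun m _ => by rw [lc_mul_mon hz.1]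
    rw [h2]
    have h3 : lc z g = ∑ m ∈ g.support, g m • mon z m := by
      unfold lc
      rw [Finsupp.linearCombination_apply, Finsupp.sum]
    rw [h3, Finset.sum_mul]
    refine Finset.sum_congr rfl fun m _ => ?_
    rw [smul_mul_assoc, mul_comm (lc z g')]
  have h2 : G = Finsupp.single e 1 := by
    apply hz.2
    change lc z G = lc z (Finsupp.single e 1)
    rw [h1, h, lc_single]
  have hval : ∀ x, G x = ∑ m ∈ g.support, g m * g' (x - m) := by
    intro x
    rw [hGdef, Finsupp.finsetSum_apply]
    refine Finset.sum_congr rfl fun m _ => ?_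
    rw [Finsupp.smul_apply, smul_eq_mul]
    congr 1
    have h3 := Finsupp.mapDomain_apply (add_left_injective m) g' (x - m)
    simp only [sub_add_cancel] at h3
    exact h3
  have key : ∀ m ∈ g.support, ∀ m' ∈ g'.support, m + m' = e ∧ g m = 1 ∧ g' m' = 1 := by
    intro m hm m' hm'
    have a1 : 1 ≤ g m := by
      have := hg m
      have := Finsupp.mem_support_iff.1 hm
      omega
    have a2 : 1 ≤ g' m' := by
      have := hg' m'
      have := Finsupp.mem_support_iff.1 hm'
      omega
    have a3 : g m * g' m' ≤ G (m + m') := by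
      rw [hval]
      have h4 := Finset.single_le_sum (f := fun x => g x * g' (m + m' - x))
        (fun x _ => mul_nonneg (hg x) (hg' _)) hm
      simp only [add_sub_cancel_left] at h4
      exact h4
    rw [h2, Finsupp.single_apply] at a3
    by_cases h5 : e = m + m'
    · rw [if_pos h5] at a3
      exact ⟨h5.symm, by nlinarith, by nlinarith⟩
    · rw [if_neg h5] at a3
      nlinarith
  have hg0 : g.support.Nonempty := by
    rw [Finset.nonempty_iff_ne_empty]
    intro h0
    rw [Finsupp.support_eq_empty] at h0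
    apply hmon
    rw [← h, h0]
    unfold lc
    rw [map_zero, zero_mul]
  have hg0' : g'.support.Nonempty := by
    rw [Finset.nonempty_iff_ne_empty]
    intro h0
    rw [Finsupp.support_eq_empty] at h0
    apply hmon
    rw [← h, h0]
    unfold lc
    rw [map_zero, mul_zero]
  obtain ⟨m, hm⟩ := hg0
  obtain ⟨m', hm'⟩ := hg0'
  obtain ⟨k1, k2, k3⟩ := key m hm m' hm'
  have e1 : g = Finsupp.single m 1 := by
    ext x
    rw [Finsupp.single_apply]
    by_cases hx : m = x
    · rw [if_pos hx, ← hx, k2]
    · rw [if_neg hx]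
      by_contra hne
      have h6 := (key x (Finsupp.mem_support_iff.2 hne) m' hm').1
      exact hx (add_right_cancel (k1.trans h6.symm))
  have e2 : g' = Finsupp.single m' 1 := by
    ext x
    rw [Finsupp.single_apply]
    by_cases hx : m' = x
    · rw [if_pos hx, ← hx, k3]
    · rw [if_neg hx]
      by_contra hne
      have h6 := (key m hm x (Finsupp.mem_support_iff.2 hne)).1
      exact hx (add_left_cancel (k1.trans h6.symm))
  refine ⟨m, by rw [e1, lc_single], ?_⟩
  rw [e2, lc_single, ← k1, add_sub_cancel_left]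

/-- `hL`: every element of the cluster algebra is a Laurent polynomial in each cluster -/
theorem cvar_indecomposable (hβ : IsGoodBasis s₀ β) (hind : ∀ s, Reachable s₀ s → Ind s.z)
    (hb : ∀ s, Reachable s₀ s → ∀ i j, i ≠ j → s.b i j ≠ 0) (hd : ∀ s, Reachable s₀ s → ∀ i, s.b i i = 0)
    (hL : ∀ s, Reachable s₀ s → ∀ f : clusterAlgebra s₀, ∃ g, (f : F) = lc s.z g)
    (s : Seed F n) (hs : Reachable s₀ s) (j : Fin n) (i : ι)
    (hi : β i = cvar s₀ s hs j) : IsIndecomposable β i := by
  classical
  intro a c hac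
  have hz := hind s hs
  obtain ⟨g, hg⟩ := hL s hs (β a)
  obtain ⟨g', hg'⟩ := hL s hs (β c)
  have h1 : lc s.z g * lc s.z g' = mon s.z (Pi.single j 1) := by
    rw [← hg, ← hg', ← Subring.coe_mul, ← hac, hi, mon_single, zpow_one]
    rfl
  obtain ⟨m, e1, e2⟩ := single_of_mul hz g g' (coef_nonneg hβ s hs hz a g hg)
    (coef_nonneg hβ s hs hz c g' hg') _ h1
  rw [e1] at hg
  rw [e2] at hg'
  have n1 := exp_nonneg hind hd hL s hs (β a) m hg
  have n2 := exp_nonneg hind hd hL s hs (β c) _ hg'
  have hoff : ∀ l, l ≠ j → m l = 0 := by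
    intro l hl
    have a1 := n1 l
    have a2 := n2 l
    rw [Pi.sub_apply, Pi.single_eq_of_ne hl] at a2
    omega
  have hj1 := n1 j
  have hj2 := n2 j
  rw [Pi.sub_apply, Pi.single_eq_same] at hj2
  have hone : ∀ m' : Fin n → ℤ, (∀ l, m' l = 0) → mon s.z m' = 1 := by
    intro m' hm'
    unfold mon
    exact Finset.prod_eq_one fun l _ => by rw [hm' l, zpow_zero]
  by_cases h0 : m j = 0
  · left
    have h2 : β a = 1 := by
      apply Subtype.ext
      rw [hg, hone m (fun l => by
        by_cases hl : l = j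
        · rw [hl, h0]
        · exact hoff l hl)]
      rfl
    rw [h2]
    exact isUnit_one
  · right
    have h2 : β c = 1 := by
      apply Subtype.ext
      rw [hg', hone _ (fun l => by
        by_cases hl : l = j
        · rw [hl, Pi.sub_apply, Pi.single_eq_same]
          omega
        · rw [Pi.sub_apply, Pi.single_eq_of_ne hl, hoff l hl, sub_zero])]
      rfl
    rw [h2]
    exact isUnit_one

end Pool.Agent.CluN
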