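import Pool.Agent.CluN.Ineq
import Pool.Agent.CluN.Irr
import Pool.Agent.CluN.Fork

/-!
# The equality of the two regions
-/

namespace Pool.Agent.CluN

variable {F : Type} [Field F] {n : ℕ} {s₀ : Seed F n} {ι : Type}
  {β : Module.Basis ι ℤ (clusterAlgebra s₀)}

theorem matReach_of_reachable (s : Seed F n) (h : Reachable s₀ s) : MatReach s₀.b s.b := by
  induction h with
  | init => exact MatReach.init
  | step s k _ ih => exact MatReach.step _ k ih

theorem acyclic_of_le_two {b : Fin n → Fin n → ℤ} (hs : IsSkew b) (hn : n ≤ 2) : Acyclic b := by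
  classical
  obtain ⟨d, hd, hd'⟩ := hs
  have hneg : ∀ i j, 0 < b i j → b j i < 0 := by
    intro i j h
    have h1 := mul_pos (hd i) h
    rw [hd' i j] at h1
    by_contra h2
    have h3 := mul_nonneg (hd j).le (not_lt.1 h2)
    omega
  refine ⟨fun i => if ∃ j, 0 < b j i then 1 else 0, fun i j hij => ?_⟩
  have h1 : ∃ k, 0 < b k j := ⟨i, hij⟩
  have h2 : ¬ ∃ k, 0 < b k i := by
    rintro ⟨k, hk⟩
    have a1 := hneg _ _ hij
    have a2 := hneg _ _ hk
    have hki : k ≠ i := by rintro rfl; omega
    have hkj : k ≠ j := by rintro rfl; omega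
    have hji : j ≠ i := by rintro rfl; omega
    have b1 := k.2
    have b2 := i.2
    have b3 := j.2
    have c1 : (k : ℕ) ≠ i := fun h => hki (Fin.ext h)
    have c2 : (k : ℕ) ≠ j := fun h => hkj (Fin.ext h)
    have c3 : (j : ℕ) ≠ i := fun h => hji (Fin.ext h)
    omega
  dsimp only
  rw [if_pos h1, if_neg h2]
  norm_num

theorem range_basis_of_zero (hn : n = 0) (hβ : IsGoodBasis s₀ β) (k : ι) : β k = 1 := by
  subst hn
  obtain ⟨i, hi⟩ := hβ.monomials 1 ⟨s₀, Reachable.init, fun _ => 0, by simp⟩
  have h1 : ((β k : clusterAlgebra s₀) : F) ∈ (⊥ : Subring F) := by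
    have h2 : clusterAlgebra s₀ = ⊥ := by
      unfold clusterAlgebra
      have : {f : F | IsClusterVariable s₀ f} = ∅ := by
        ext f
        simp only [Set.mem_ofPred_eq, Set.mem_empty_iff_false, iff_false]
        rintro ⟨s, _, j, _⟩
        exact j.elim0
      rw [this, Subring.closure_empty]
    rw [← h2]
    exact (β k).2
  obtain ⟨m, hm⟩ := Subring.mem_bot.1 h1
  have h3 : β k = m • β i := by
    rw [hi]
    apply Subtype.ext
    rw [← hm]
    simp
  have h4 := congrArg (fun x => β.repr x k) h3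
  simp only [Module.Basis.repr_self, map_zsmul, Finsupp.smul_apply, Finsupp.single_eq_same] at h4
  have h5 : i = k := by
    by_contra hne
    rw [Finsupp.single_eq_of_ne (Ne.symm hne)] at h4
    simp at h4
  rw [← h5, hi]

theorem regions (hs : IsSeed s₀)
    (h : (Abundant s₀.b ∧ (n ≤ 2 ∨ Acyclic s₀.b)) ∨ ∀ b, MatReach s₀.b b → Abundant b)
    (hβ : IsGoodBasis s₀ β) :
    superunitary β = realSuperunitary β ∧
      superunitary β = {p | ∀ x : clusterAlgebra s₀, IsClusterVariable s₀ (x : F) → 1 ≤ p x} := by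
  have hA : ∀ b, MatReach s₀.b b → Abundant b := by
    rcases h with ⟨h1, h2⟩ | h
    · refine abundant_of_acyclic s₀.b hs.2 ?_ h1
      rcases h2 with h2 | h2
      · exact acyclic_of_le_two hs.2 h2
      · exact h2
    · exact h
  have hA' : ∀ s, Reachable s₀ s → Abundant s.b := fun s hr => hA _ (matReach_of_reachable s hr)
  have hF : ∀ s, Reachable s₀ s → Fine s :=
    fine_of_reachable (ind_of_algebraicIndependent _ hs.1) hs.2
      (fun s hr i j hij => (hA' s hr i j hij).1)
  -- the basis element of a cluster variable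
  have hcv : ∀ s (hr : Reachable s₀ s) j, ∃ i, β i = cvar s₀ s hr j := by
    intro s hr j
    obtain ⟨i, hi⟩ := hβ.monomials (cvar s₀ s hr j) ⟨s, hr, Pi.single j 1, by
      rw [Finset.prod_eq_single j]
      · simp [cvar]
      · intro b _ hb; simp [hb]
      · intro h; exact absurd (Finset.mem_univ j) h⟩
    exact ⟨i, hi⟩
  have key : ∀ p : clusterAlgebra s₀ →+* ℝ,
      (∀ s (hr : Reachable s₀ s) j, 1 ≤ p (cvar s₀ s hr j)) → ∀ i, 1 ≤ p (β i) := by
    intro p hp i
    by_cases hn : n = 0
    · rw [range_basis_of_zero hn hβ i, map_one]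
    · have hpos : ∀ k, 0 < p (β k) := by
        intro k
        have hFs := hF s₀ Reachable.init
        have : NeZero n := ⟨hn⟩
        obtain ⟨g, hg⟩ := exists_lc hFs.ind 0 _ (β k : F)
          (mem_TT_of_mem_Up hFs _ (clusterAlgebra_le hF s₀ Reachable.init (β k).2) 0)
        have hg0 : g ≠ 0 := by
          rintro rfl
          have : (β k : F) = 0 := by rw [hg]; unfold lc; simp
          exact β.ne_zero k (Subtype.ext this)
        obtain ⟨m, hm⟩ := Finsupp.ne_iff.1 hg0
        exact (log_ge hβ s₀ Reachable.init hFs.ind k g hg p (hp s₀ Reachable.init) m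
          (by simpa using hm)).1
      exact one_le_basis hF hA' hβ p hp hpos hn i
  have hL : ∀ s, Reachable s₀ s → n ≠ 0 → ∀ f : clusterAlgebra s₀, ∃ g, (f : F) = lc s.z g := by
    intro s hr hn f
    have hFs := hF s hr
    have : NeZero n := ⟨hn⟩
    exact exists_lc hFs.ind 0 _ (f : F)
      (mem_TT_of_mem_Up hFs _ (clusterAlgebra_le hF s hr f.2) 0)
  constructor
  · apply Set.Subset.antisymm
    · intro p hp
      refine ⟨fun x hx => ?_, fun i _ _ => hp i⟩
      obtain ⟨s, hr, j, hj⟩ := hx
      obtain ⟨i, hi⟩ := hcv s hr j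
      have h1 : x = cvar s₀ s hr j := Subtype.ext hj
      have := hp i
      rw [h1, ← hi]
      linarith
    · rintro p ⟨-, hp⟩
      apply key p
      intro s hr j
      obtain ⟨i, hi⟩ := hcv s hr j
      have hn : n ≠ 0 := by rintro rfl; exact j.elim0
      rw [← hi]
      exact hp i (cvar_real hβ s hr j i hi) (cvar_indecomposable hβ (fun s hr => (hF s hr).ind)
        (fun s hr => (hF s hr).ne) (fun s hr i => skew_diag (hF s hr).skew i)
        (fun s hr => hL s hr hn) s hr j i hi)
  · apply Set.Subset.antisymm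
    · intro p hp x hx
      obtain ⟨s, hr, j, hj⟩ := hx
      obtain ⟨i, hi⟩ := hcv s hr j
      have h1 : x = cvar s₀ s hr j := Subtype.ext hj
      rw [h1, ← hi]
      exact hp i
    · intro p hp
      exact key p fun s hr j => hp _ ⟨s, hr, j, rfl⟩

end Pool.Agent.CluN
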