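import Pool.Agent.CluN.Reach
import Pool.Agent.CluN.Pos
import Pool.Agent.CluN.Num

/-!
# Elements of good bases are at least one where the cluster variables are
-/

namespace Pool.Agent.CluN

variable {F : Type} [Field F] {n : ℕ} {s₀ : Seed F n} {ι : Type}
  {β : Module.Basis ι ℤ (clusterAlgebra s₀)}

/-- the basic inequality: a high power of `z i` occurs, the other denominators are bounded -/
theorem main_ineq (hF : ∀ s, Reachable s₀ s → Fine s) (hβ : IsGoodBasis s₀ β) (s : Seed F n)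
    (hs : Reachable s₀ s) (k : ι) (p : clusterAlgebra s₀ →+* ℝ)
    (hp : ∀ j, 1 ≤ p (cvar s₀ s hs j)) (i : Fin n) (D : Fin n → ℕ)
    (hD : ∀ j, j ≠ i → OrdGe (Ck s.z j) (s.z j) (D j) (β k : F)) (E : ℕ) (hE : 1 ≤ E)
    (hdeg : ¬ DegLe (Ck s.z i) (s.z i) (E - 1) (β k : F)) :
    E * Real.log (p (cvar s₀ s hs i)) -
      ∑ j ∈ Finset.univ.erase i, D j * Real.log (p (cvar s₀ s hs j)) ≤ Real.log (p (β k)) := by
  have hFs := hF s hs
  obtain ⟨g, hg⟩ := exists_lc hFs.ind i _ (β k : F)
    (mem_TT_of_mem_Up hFs _ (clusterAlgebra_le hF s hs (β k).2) i)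
  obtain ⟨m, hm, hmi⟩ : ∃ m, g m ≠ 0 ∧ (E : ℤ) ≤ m i := by
    by_contra hno
    push Not at hno
    apply hdeg
    rw [hg]
    refine degLe_of_support hFs.ind g i (E - 1) fun m hm => ?_
    have := hno m hm
    omega
  have hmj : ∀ j, j ≠ i → -(D j : ℤ) ≤ m j := by
    intro j hj
    have := hD j hj
    rw [hg] at this
    exact support_of_ordGe hFs.ind g j (D j) this m hm
  have h1 := (log_ge hβ s hs hFs.ind k g hg p hp m hm).2
  refine le_trans ?_ h1
  have hl : ∀ j, 0 ≤ Real.log (p (cvar s₀ s hs j)) := fun j => Real.log_nonneg (hp j)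
  rw [← Finset.add_sum_erase Finset.univ _ (Finset.mem_univ i), sub_eq_add_neg,
    ← Finset.sum_neg_distrib]
  apply add_le_add
  · exact mul_le_mul_of_nonneg_right (by exact_mod_cast hmi) (hl i)
  · refine Finset.sum_le_sum fun j hj => ?_
    have h2 := hmj j (Finset.ne_of_mem_erase hj)
    have h3 : -(D j : ℝ) ≤ m j := by exact_mod_cast h2
    have := mul_le_mul_of_nonneg_right h3 (hl j)
    linarith

theorem nonneg_of_no_denominators (hF : ∀ s, Reachable s₀ s → Fine s) (hβ : IsGoodBasis s₀ β)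
    (s : Seed F n) (hs : Reachable s₀ s) (k : ι) (p : clusterAlgebra s₀ →+* ℝ)
    (hp : ∀ j, 1 ≤ p (cvar s₀ s hs j))
    (hD : ∀ j, OrdGe (Ck s.z j) (s.z j) 0 (β k : F)) (hn : n ≠ 0) :
    0 ≤ Real.log (p (β k)) := by
  have hFs := hF s hs
  have : NeZero n := ⟨hn⟩
  obtain ⟨g, hg⟩ := exists_lc hFs.ind 0 _ (β k : F)
    (mem_TT_of_mem_Up hFs _ (clusterAlgebra_le hF s hs (β k).2) 0)
  have hg0 : g ≠ 0 := by
    rintro rfl
    have : (β k : F) = 0 := by rw [hg]; unfold lc; simp
    exact β.ne_zero k (Subtype.ext this)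
  obtain ⟨m, hm⟩ := Finsupp.ne_iff.1 hg0
  have hm' : g m ≠ 0 := by simpa using hm
  refine le_trans ?_ (log_ge hβ s hs hFs.ind k g hg p hp m hm').2
  refine Finset.sum_nonneg fun j _ => mul_nonneg ?_ (Real.log_nonneg (hp j))
  have := hD j
  rw [hg] at this
  have h2 := support_of_ordGe hFs.ind g j 0 this m hm'
  have h3 : (0 : ℤ) ≤ m j := by simpa using h2
  exact_mod_cast h3

/-- the exchange relation at `p` -/
theorem exchange_log (s : Seed F n) (hs : Reachable s₀ s) (hFs : Fine s)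
    (p : clusterAlgebra s₀ →+* ℝ) (hp : ∀ j, 1 ≤ p (cvar s₀ s hs j)) (i : Fin n)
    (hp' : 1 ≤ p (cvar s₀ (s.mutate i) (Reachable.step s i hs) i)) :
    (∑ j, (max (s.b j i) 0 : ℤ) * Real.log (p (cvar s₀ s hs j)) ≤
      Real.log (p (cvar s₀ s hs i)) +
        Real.log (p (cvar s₀ (s.mutate i) (Reachable.step s i hs) i))) ∧
    (∑ j, (max (-(s.b j i)) 0 : ℤ) * Real.log (p (cvar s₀ s hs j)) ≤
      Real.log (p (cvar s₀ s hs i)) +
        Real.log (p (cvar s₀ (s.mutate i) (Reachable.step s i hs) i))) := by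
  set v : Fin n → ℝ := fun j => p (cvar s₀ s hs j) with hv
  set v' : ℝ := p (cvar s₀ (s.mutate i) (Reachable.step s i hs) i) with hv'
  have hv0 : ∀ j, 0 < v j := fun j => one_pos.trans_le (hp j)
  have hv'0 : 0 < v' := one_pos.trans_le hp'
  have hrel : v i * v' = ∏ j, v j ^ (s.b j i).toNat + ∏ j, v j ^ (-(s.b j i)).toNat := by
    have h1 : cvar s₀ s hs i * cvar s₀ (s.mutate i) (Reachable.step s i hs) i =
        ∏ j, cvar s₀ s hs j ^ (s.b j i).toNat + ∏ j, cvar s₀ s hs j ^ (-(s.b j i)).toNat := by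
      apply Subtype.ext
      have h2 : ∀ e : Fin n → ℕ, ((∏ j, cvar s₀ s hs j ^ e j : clusterAlgebra s₀) : F) =
          ∏ j, s.z j ^ e j := by
        intro e
        rw [← Subring.coe_subtype, map_prod]
        refine Finset.prod_congr rfl fun j _ => ?_
        rw [map_pow]; rfl
      rw [Subring.coe_mul, Subring.coe_add, h2, h2]
      change s.z i * (s.mutate i).z i = _
      rw [mutate_z, newz_self]
      have := hFs.ind.1 i
      rw [mul_div_cancel₀ _ this]
      rfl
    have h2 := congrArg p h1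
    rw [map_mul, map_add, map_prod, map_prod] at h2
    simp only [map_pow] at h2
    exact h2
  have hprod : ∀ e : Fin n → ℕ, 0 < ∏ j, v j ^ e j := fun e =>
    Finset.prod_pos fun j _ => pow_pos (hv0 j) _
  have hlog : ∀ e : Fin n → ℕ, Real.log (∏ j, v j ^ e j) = ∑ j, (e j : ℝ) * Real.log (v j) := by
    intro e
    rw [Real.log_prod (fun j _ => (pow_pos (hv0 j) _).ne')]
    refine Finset.sum_congr rfl fun j _ => ?_
    rw [Real.log_pow]
  have hsum : Real.log (v i) + Real.log v' = Real.log (v i * v') :=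
    (Real.log_mul (hv0 i).ne' hv'0.ne').symm
  have hcast : ∀ a : ℤ, ((max a 0 : ℤ) : ℝ) = (a.toNat : ℝ) := by
    intro a
    rw [← Int.toNat_eq_max, Int.cast_natCast]
  constructor
  · rw [hsum, hrel]
    have h1 := Real.log_le_log (hprod fun j => (s.b j i).toNat)
      (le_add_of_nonneg_right (hprod fun j => (-(s.b j i)).toNat).le)
    rw [hlog] at h1
    refine le_trans (le_of_eq ?_) h1
    exact Finset.sum_congr rfl fun j _ => by rw [hcast]
  · rw [hsum, hrel]
    have h1 := Real.log_le_log (hprod fun j => (-(s.b j i)).toNat)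
      (le_add_of_nonneg_left (hprod fun j => (s.b j i).toNat).le)
    rw [hlog] at h1
    refine le_trans (le_of_eq ?_) h1
    exact Finset.sum_congr rfl fun j _ => by rw [hcast]

/-- every element of a good basis is at least one where all cluster variables are -/
theorem one_le_basis (hF : ∀ s, Reachable s₀ s → Fine s)
    (hA : ∀ s, Reachable s₀ s → Abundant s.b) (hβ : IsGoodBasis s₀ β)
    (p : clusterAlgebra s₀ →+* ℝ) (hp : ∀ s (hs : Reachable s₀ s) j, 1 ≤ p (cvar s₀ s hs j))
    (hpos : ∀ k, 0 < p (β k)) (hn : n ≠ 0) (k : ι) : 1 ≤ p (β k) := by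
  classical
  by_contra hlt
  push Not at hlt
  have hneg : Real.log (p (β k)) < 0 := Real.log_neg (hpos k) hlt
  obtain ⟨s, D, hs, hD, hdeg, hdeg'⟩ := exists_min hF (β k : F) (β k).2
  have hFs := hF s hs
  have hfU := clusterAlgebra_le hF s hs (β k).2
  set v : Fin n → ℝ := fun j => Real.log (p (cvar s₀ s hs j)) with hv
  have hv0 : ∀ j, 0 ≤ v j := fun j => Real.log_nonneg (hp s hs j)
  set y : Fin n → ℝ := fun j => D j * v j with hy
  have hy0 : ∀ j, 0 ≤ y j := fun j => mul_nonneg (Nat.cast_nonneg _) (hv0 j)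
  set S : ℝ := ∑ j, y j with hS
  have hsplit : ∀ i, ∑ j ∈ Finset.univ.erase i, y j = S - y i := by
    intro i
    rw [hS, ← Finset.add_sum_erase Finset.univ y (Finset.mem_univ i)]; ring
  have hex : ∃ i, 1 ≤ D i := by
    by_contra hno
    push Not at hno
    have h0 : ∀ j, D j = 0 := fun j => by have := hno j; omega
    have := nonneg_of_no_denominators hF hβ s hs k p (hp s hs)
      (fun j => by have := hD j; rwa [h0 j] at this) hn
    linarith
  have hhalf1 : ∀ i, 1 ≤ D i → 2 * y i < S := by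
    intro i hi
    have h1 := main_ineq hF hβ s hs k p (hp s hs) i D (fun j _ => hD j) (D i) hi (hdeg i hi)
    have h2 : D i * v i - ∑ j ∈ Finset.univ.erase i, y j ≤ Real.log (p (β k)) := h1
    rw [hsplit] at h2
    have h3 : y i = D i * v i := rfl
    linarith
  have hSpos : 0 < S := by
    obtain ⟨i, hi⟩ := hex
    have := hhalf1 i hi
    have := hy0 i
    linarith
  have hhalf : ∀ i, 2 * y i < S := by
    intro i
    by_cases hi : 1 ≤ D i
    · exact hhalf1 i hi
    · have : D i = 0 := by omega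
      have h1 : y i = 0 := by rw [hy]; simp [this]
      rw [h1]; linarith
  -- the adjacent seeds
  have hadj : ∀ i, 1 ≤ D i → D i * (v i +
      Real.log (p (cvar s₀ (s.mutate i) (Reachable.step s i hs) i))) < S := by
    intro i hi
    have hs' := Reachable.step s i hs
    have h1 := main_ineq hF hβ (s.mutate i) hs' k p (hp _ hs') i D
      (fun j hj => ordGe_mutate_ne hFs _ hfU i j hj _ (hD j)) (D i) hi (hdeg' i hi)
    have h2 : ∑ j ∈ Finset.univ.erase i, D j * Real.log (p (cvar s₀ (s.mutate i) hs' j)) =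
        S - y i := by
      rw [← hsplit]
      refine Finset.sum_congr rfl fun j hj => ?_
      have hj' : j ≠ i := Finset.ne_of_mem_erase hj
      have h3 : cvar s₀ (s.mutate i) hs' j = cvar s₀ s hs j :=
        Subtype.ext (newz_of_ne s.z s.b hj')
      rw [h3]
    rw [h2] at h1
    have h3 : y i = D i * v i := rfl
    rw [mul_add]
    linarith
  set t : Fin n → Fin n → ℝ := fun i j => D i * (|(s.b j i : ℝ)| * v j) with ht
  have ht0 : ∀ i j, 0 ≤ t i j := fun i j =>
    mul_nonneg (Nat.cast_nonneg _) (mul_nonneg (abs_nonneg _) (hv0 j))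
  -- the two sums
  have hsums : ∀ i, ∑ j, D i * (((max (s.b j i) 0 : ℤ) : ℝ) * v j) < S ∧
      ∑ j, D i * (((max (-(s.b j i)) 0 : ℤ) : ℝ) * v j) < S := by
    intro i
    by_cases hi : 1 ≤ D i
    · have h1 := exchange_log s hs hFs p (hp s hs) i (hp _ (Reachable.step s i hs) i)
      have h2 := hadj i hi
      have hDi : (0 : ℝ) ≤ D i := Nat.cast_nonneg _
      constructor
      · rw [← Finset.mul_sum]
        exact lt_of_le_of_lt (mul_le_mul_of_nonneg_left h1.1 hDi) h2
      · rw [← Finset.mul_sum]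
        exact lt_of_le_of_lt (mul_le_mul_of_nonneg_left h1.2 hDi) h2
    · have : D i = 0 := by omega
      simp [this, hSpos]
  have habs : ∀ a : ℤ, |(a : ℝ)| = ((max a 0 : ℤ) : ℝ) + ((max (-a) 0 : ℤ) : ℝ) := by
    intro a
    have h1 : |a| = max a 0 + max (-a) 0 := by
      rcases le_total 0 a with h | h
      · rw [abs_of_nonneg h]; omega
      · rw [abs_of_nonpos h]; omega
    rw [← Int.cast_abs, h1]; push_cast; rfl
  have hcase : ∀ a : ℤ, |(a : ℝ)| = ((max a 0 : ℤ) : ℝ) ∨ |(a : ℝ)| = ((max (-a) 0 : ℤ) : ℝ) := by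
    intro a
    rcases le_total 0 a with h | h
    · left
      rw [← Int.cast_abs, abs_of_nonneg h, max_eq_left h]
    · right
      rw [← Int.cast_abs, abs_of_nonpos h, max_eq_left (by omega)]
  have hnn : ∀ i j (a : ℤ), 0 ≤ (D i : ℝ) * (((max a 0 : ℤ) : ℝ) * v j) := fun i j a =>
    mul_nonneg (Nat.cast_nonneg _) (mul_nonneg (by exact_mod_cast le_max_right a 0) (hv0 j))
  have ht1 : ∀ i j, i ≠ j → t i j < S := by
    intro i j _
    rcases hcase (s.b j i) with h | h
    · refine lt_of_le_of_lt ?_ (hsums i).1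
      have := Finset.single_le_sum (f := fun j => (D i : ℝ) * (((max (s.b j i) 0 : ℤ) : ℝ) * v j))
        (fun j _ => hnn i j _) (Finset.mem_univ j)
      have e : t i j = (D i : ℝ) * (((max (s.b j i) 0 : ℤ) : ℝ) * v j) := by
        rw [ht]; dsimp only; rw [h]
      rw [e]; exact this
    · refine lt_of_le_of_lt ?_ (hsums i).2
      have := Finset.single_le_sum
        (f := fun j => (D i : ℝ) * (((max (-(s.b j i)) 0 : ℤ) : ℝ) * v j))
        (fun j _ => hnn i j _) (Finset.mem_univ j)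
      have e : t i j = (D i : ℝ) * (((max (-(s.b j i)) 0 : ℤ) : ℝ) * v j) := by
        rw [ht]; dsimp only; rw [h]
      rw [e]; exact this
  have ht2 : ∀ i, ∑ j, t i j < 2 * S := by
    intro i
    have h1 : ∑ j, t i j = ∑ j, D i * (((max (s.b j i) 0 : ℤ) : ℝ) * v j) +
        ∑ j, D i * (((max (-(s.b j i)) 0 : ℤ) : ℝ) * v j) := by
      rw [← Finset.sum_add_distrib]
      refine Finset.sum_congr rfl fun j _ => ?_
      rw [ht]; dsimp only
      rw [habs]; ring
    rw [h1]
    have := hsums i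
    linarith [this.1, this.2]
  refine no_weights y t hy0 hSpos hhalf ht0 ht1 ht2 ?_
  by_cases hn2 : n ≤ 2
  · exact Or.inl hn2
  right
  intro i j hij
  have h1 : (9 : ℤ) ≤ |s.b i j * s.b j i| := by
    rcases (hA s hs i j hij).2 with h | h
    · exact absurd h hn2
    · exact h
  have h2 : (9 : ℝ) ≤ |(s.b j i : ℝ)| * |(s.b i j : ℝ)| := by
    have : (9 : ℝ) ≤ ((|s.b i j * s.b j i| : ℤ) : ℝ) := by exact_mod_cast h1
    rw [Int.cast_abs, Int.cast_mul, abs_mul] at this
    linarith [mul_comm |(s.b i j : ℝ)| |(s.b j i : ℝ)|]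
  have h3 : t i j * t j i = (|(s.b j i : ℝ)| * |(s.b i j : ℝ)|) * (y i * y j) := by
    rw [ht, hy]; dsimp only; ring
  rw [h3]
  exact mul_le_mul_of_nonneg_right h2 (mul_nonneg (hy0 i) (hy0 j))

end Pool.Agent.CluN
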