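import Pool.Agent.CluN.Mono
import Pool.Agent.CluN.Abs

/-!
# The Laurent phenomenon for matrices with nonzero off-diagonal entries
-/

namespace Pool.Agent.CluN

variable {F : Type} [Field F] {n : ℕ}

/-- positive part -/
def posp (e : Fin n → ℤ) : Fin n → ℤ := fun i => max (e i) 0
/-- negative part -/
def negp (e : Fin n → ℤ) : Fin n → ℤ := fun i => max (-(e i)) 0
/-- column -/
def col (b : Fin n → Fin n → ℤ) (k : Fin n) : Fin n → ℤ := fun i => b i k

theorem rhs_eq (z : Fin n → F) (b : Fin n → Fin n → ℤ) (k : Fin n) :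
    rhs z b k = mon z (posp (col b k)) + mon z (negp (col b k)) := by
  unfold rhs mon posp negp col
  congr 1
  · refine Finset.prod_congr rfl fun i _ => ?_
    rw [← Int.toNat_eq_max, zpow_natCast]
  · refine Finset.prod_congr rfl fun i _ => ?_
    rw [← Int.toNat_eq_max, zpow_natCast]

theorem zpow_mem_Ck (z : Fin n → F) (k j : Fin n) (hj : j ≠ k) (a : ℤ) : z j ^ a ∈ Ck z k := by
  rcases le_total 0 a with h | h
  · obtain ⟨m, rfl⟩ := Int.eq_ofNat_of_zero_le h
    rw [zpow_natCast]
    have h1 : z j ∈ Ck z k := Subring.subset_closure (Or.inl ⟨j, hj, rfl⟩)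
    exact pow_mem h1 _
  · obtain ⟨m, rfl⟩ : ∃ m : ℕ, a = -(m : ℤ) := ⟨(-a).toNat, by omega⟩
    rw [zpow_neg, zpow_natCast, ← inv_pow]
    have h1 : (z j)⁻¹ ∈ Ck z k := Subring.subset_closure (Or.inr ⟨j, hj, rfl⟩)
    exact pow_mem h1 _

theorem mon_mem_Ck (z : Fin n → F) (k : Fin n) (m : Fin n → ℤ) (hm : m k = 0) :
    mon z m ∈ Ck z k := by
  unfold mon
  refine Subring.prod_mem _ fun j _ => ?_
  by_cases hj : j = k
  · rw [hj, hm, zpow_zero]; exact one_mem _
  · exact zpow_mem_Ck z k j hj _

theorem mon_update (z : Fin n → F) (i : Fin n) (x : F) (m : Fin n → ℤ) (hm : m i = 0) :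
    mon (Function.update z i x) m = mon z m := by
  unfold mon
  refine Finset.prod_congr rfl fun j _ => ?_
  by_cases hj : j = i
  · rw [hj, hm, zpow_zero, zpow_zero]
  · rw [Function.update_of_ne hj]

theorem mon_single_mul (z : Fin n → F) (i : Fin n) (m : Fin n → ℤ) :
    mon z m = z i ^ m i * mon z (Function.update m i 0) := by
  unfold mon
  rw [← Finset.mul_prod_erase Finset.univ _ (Finset.mem_univ i),
    ← Finset.mul_prod_erase Finset.univ (fun j => z j ^ (Function.update m i 0) j)
      (Finset.mem_univ i)]
  rw [Function.update_self, zpow_zero, one_mul]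
  congr 1
  refine Finset.prod_congr rfl fun j hj => ?_
  rw [Function.update_of_ne (Finset.ne_of_mem_erase hj)]

/-- the ring of the star condition in direction `k` -/
def W (z : Fin n → F) (b : Fin n → Fin n → ℤ) (k : Fin n) : Subring F :=
  Subring.closure ((Ck z k : Set F) ∪ {z k, rhs z b k / z k})

/-- the new cluster -/
noncomputable def newz (z : Fin n → F) (b : Fin n → Fin n → ℤ) (i : Fin n) : Fin n → F :=
  Function.update z i (rhs z b i / z i)

theorem newz_of_ne (z : Fin n → F) (b : Fin n → Fin n → ℤ) {i j : Fin n} (h : j ≠ i) :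
    newz z b i j = z j := Function.update_of_ne h _ _

theorem newz_self (z : Fin n → F) (b : Fin n → Fin n → ℤ) (i : Fin n) :
    newz z b i i = rhs z b i / z i := Function.update_self _ _ _

theorem rhs_neg (z : Fin n → F) (b : Fin n → Fin n → ℤ) (k : Fin n) :
    rhs z (fun i j => -(b i j)) k = rhs z b k := by
  unfold rhs
  simp only [neg_neg]
  rw [add_comm]

theorem newz_neg (z : Fin n → F) (b : Fin n → Fin n → ℤ) (k : Fin n) :
    newz z (fun i j => -(b i j)) k = newz z b k := by
  unfold newz; rw [rhs_neg]

theorem mutB_neg (b : Fin n → Fin n → ℤ) (k : Fin n) :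
    mutB (fun i j => -(b i j)) k = fun i j => -(mutB b k i j) := by
  funext i j
  unfold mutB
  split_ifs
  · rfl
  · simp only [neg_neg]; ring

theorem W_neg (z : Fin n → F) (b : Fin n → Fin n → ℤ) (k : Fin n) :
    W z (fun i j => -(b i j)) k = W z b k := by
  unfold W; rw [rhs_neg]

theorem Ck_le_W (z : Fin n → F) (b : Fin n → Fin n → ℤ) (k : Fin n) : Ck z k ≤ W z b k :=
  fun _ hx => Subring.subset_closure (Or.inl hx)

theorem z_mem_W (z : Fin n → F) (b : Fin n → Fin n → ℤ) (k : Fin n) : z k ∈ W z b k :=
  Subring.subset_closure (by simp)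

theorem w_mem_W (z : Fin n → F) (b : Fin n → Fin n → ℤ) (k : Fin n) :
    rhs z b k / z k ∈ W z b k := Subring.subset_closure (by simp)

/-- `rhs` in direction `i`, as a polynomial in `z k` with a unit as constant term -/
theorem rhs_split (z : Fin n → F) (b : Fin n → Fin n → ℤ) (i k : Fin n)
    (hik : i ≠ k) (hii : b i i = 0) (hki : b k i ≠ 0) :
    ∃ (e e' : Fin n → ℤ) (β : ℕ), 1 ≤ β ∧ e i = 0 ∧ e k = 0 ∧ e' i = 0 ∧ e' k = 0 ∧
      rhs z b i = mon z e + mon z e' * z k ^ β ∧ (b k i < 0 → e = posp (col b i)) := by
  rw [rhs_eq]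
  rcases lt_or_gt_of_ne hki with h | h
  · refine ⟨posp (col b i), Function.update (negp (col b i)) k 0, (negp (col b i) k).toNat,
      ?_, ?_, ?_, ?_, ?_, ?_, fun _ => rfl⟩
    · unfold negp col; omega
    · unfold posp col; rw [hii]; simp
    · unfold posp col; omega
    · rw [Function.update_of_ne hik]; unfold negp col; rw [hii]; simp
    · simp
    · rw [mon_single_mul z k (negp (col b i))]
      have : (z k) ^ (negp (col b i) k) = z k ^ (negp (col b i) k).toNat := by
        rw [← zpow_natCast]; congr 1; unfold negp col; omega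
      rw [this, mul_comm (mon z _)]
  · refine ⟨negp (col b i), Function.update (posp (col b i)) k 0, (posp (col b i) k).toNat,
      ?_, ?_, ?_, ?_, ?_, ?_, fun h' => absurd h' (by omega)⟩
    · unfold posp col; omega
    · unfold negp col; rw [hii]; simp
    · unfold negp col; omega
    · rw [Function.update_of_ne hik]; unfold posp col; rw [hii]; simp
    · simp
    · rw [mon_single_mul z k (posp (col b i))]
      have : (z k) ^ (posp (col b i) k) = z k ^ (posp (col b i) k).toNat := by
        rw [← zpow_natCast]; congr 1; unfold posp col; omega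
      rw [this, mul_comm (mon z _), add_comm]

/-- the key computation: the old exchange partner of `z k` lies in the new star ring -/
theorem key_pos (z : Fin n → F) (hz : ∀ j, z j ≠ 0) (b : Fin n → Fin n → ℤ) (i k : Fin n)
    (hik : i ≠ k) (hii : b i i = 0) (hkk : b k k = 0) (hi : rhs z b i ≠ 0) (hb : 0 < b i k)
    (hb' : b k i < 0) : rhs z b k / z k ∈ W (newz z b i) (mutB b i) k := by
  obtain ⟨e, e', β, hβ, he1, he2, he3, he4, hu, he⟩ := rhs_split z b i k hik hii hb'.ne
  have he := he hb'
  set z' := newz z b i with hz'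
  set b' := mutB b i with hb'd
  have hz'0 : ∀ j, z' j ≠ 0 := by
    intro j
    by_cases hj : j = i
    · rw [hj, hz', newz_self]; exact div_ne_zero hi (hz i)
    · rw [hz', newz_of_ne _ _ hj]; exact hz j
  have hkz : z' k = z k := newz_of_ne _ _ (Ne.symm hik)
  have hm' : ∀ m : Fin n → ℤ, m i = 0 → mon z' m = mon z m := fun m hm => mon_update z i _ m hm
  have hC : ∀ m : Fin n → ℤ, m k = 0 → mon z' m ∈ W z' b' k := fun m hm =>
    Ck_le_W _ _ _ (mon_mem_Ck z' k m hm)
  have hy : z k ∈ W z' b' k := by rw [← hkz]; exact z_mem_W _ _ _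
  -- the exponent
  obtain ⟨c, hc⟩ : ∃ c : ℕ, b i k = c := ⟨(b i k).toNat, by omega⟩
  set A : Fin n → ℤ := Function.update (posp (col b k)) i 0 with hA
  set B : Fin n → ℤ := negp (col b k) with hB
  have hBi : B i = 0 := by rw [hB]; unfold negp col; omega
  have hBk : B k = 0 := by rw [hB]; unfold negp col; omega
  have hAi : A i = 0 := by rw [hA]; simp
  have hAk : A k = 0 := by
    rw [hA, Function.update_of_ne (Ne.symm hik)]; unfold posp col; omega
  have hrk : rhs z b k = z i ^ c * mon z A + mon z B := by
    rw [rhs_eq, mon_single_mul z i (posp (col b k))]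
    have : posp (col b k) i = (c : ℤ) := by unfold posp col; omega
    rw [this, zpow_natCast]
  -- `z i = u / z' i`
  have hzi : z i = rhs z b i * (z' i)⁻¹ := by
    rw [hz', newz_self]
    field_simp [hz i, hi]
  -- expansion of the power
  have hpow : ∃ h ∈ W z' b' k, (rhs z b i) ^ c = (mon z e) ^ c + mon z e' * z k ^ β * h := by
    have hr : mon z e ∈ W z' b' k := by rw [← hm' e he1]; exact hC e he2
    have hq : mon z e' ∈ W z' b' k := by rw [← hm' e' he3]; exact hC e' he4
    have hu' : rhs z b i ∈ W z' b' k := by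
      rw [hu]; exact add_mem hr (mul_mem hq (pow_mem hy _))
    obtain ⟨h, hh⟩ := sub_dvd_pow_sub_pow (⟨_, hu'⟩ : W z' b' k) ⟨_, hr⟩ c
    refine ⟨h, h.2, ?_⟩
    have h1 := congrArg (W z' b' k).subtype hh
    simp only [map_sub, map_pow, map_mul, Subring.subtype_apply] at h1
    have h2 : rhs z b i - mon z e = mon z e' * z k ^ β := by rw [hu]; ring
    rw [h2] at h1
    linear_combination h1
  obtain ⟨h, hh, hpow⟩ := hpow
  -- the bracket
  have hbr : (mon z e) ^ c * ((z' i)⁻¹) ^ c * mon z A + mon z B =
      mon z' (B - negp (col b' k)) * rhs z' b' k := by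
    rw [rhs_eq, mul_add, ← mon_add hz'0, ← mon_add hz'0]
    have e2 : B - negp (col b' k) + negp (col b' k) = B := by ring
    have e1 : mon z' (B - negp (col b' k) + posp (col b' k)) =
        (mon z e) ^ c * ((z' i)⁻¹) ^ c * mon z A := by
      rw [mon_single_mul z' i]
      have hcol : ∀ j, posp (col b' k) j - negp (col b' k) j = b' j k := by
        intro j; unfold posp negp col; omega
      have h3 : (B - negp (col b' k) + posp (col b' k)) i = -(c : ℤ) := by
        have := hcol i
        have h4 : b' i k = -(c : ℤ) := by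
          rw [hb'd]; unfold mutB; rw [if_pos (Or.inl rfl), hc]
        simp only [Pi.add_apply, Pi.sub_apply]
        rw [hBi]; omega
      have h5 : Function.update (B - negp (col b' k) + posp (col b' k)) i 0 =
          (fun j => (c : ℤ) * e j) + A := by
        funext j
        by_cases hj : j = i
        · rw [hj, Function.update_self, Pi.add_apply, he1, hAi]; simp
        · rw [Function.update_of_ne hj]
          have := hcol j
          simp only [Pi.add_apply, Pi.sub_apply]
          have hAj : A j = posp (col b k) j := by rw [hA, Function.update_of_ne hj]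
          rw [hAj, he]
          by_cases hjk : j = k
          · subst hjk
            have h6 : b' j j = 0 := by
              rw [hb'd]; unfold mutB
              rw [if_neg (by tauto), hkk, max_eq_right (by omega : b j i ≤ 0),
                max_eq_right (by omega : -(b i j) ≤ 0)]
              ring
            have h7 : B j = 0 := hBk
            have h8 : posp (col b i) j = 0 := by unfold posp col; omega
            have h9 : posp (col b j) j = 0 := by unfold posp col; omega
            rw [h7, h8, h9]; omega
          · have h6 : b' j k = b j k + max (b j i) 0 * c := by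
              rw [hb'd]; unfold mutB
              rw [if_neg (by tauto), max_eq_right (by omega : -(b i k) ≤ 0),
                max_eq_left (by omega : 0 ≤ b i k), hc]
              ring
            have h7 : posp (col b k) j - B j = b j k := by
              rw [hB]; unfold posp negp col; omega
            have h8 : posp (col b i) j = max (b j i) 0 := rfl
            rw [h8, mul_comm (c : ℤ)]
            omega
      rw [h3, h5]
      have h6 : (((fun j => (c : ℤ) * e j) + A : Fin n → ℤ)) i = 0 := by
        simp [he1, hAi]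
      rw [hm' _ h6, mon_add hz, zpow_neg, zpow_natCast, ← inv_pow]
      have h7 : mon z (fun j => (c : ℤ) * e j) = (mon z e) ^ c := by
        unfold mon
        rw [← Finset.prod_pow]
        refine Finset.prod_congr rfl fun j _ => ?_
        dsimp only
        rw [mul_comm, zpow_mul, zpow_natCast]
      rw [h7]; ring
    rw [e1, e2, hm' B hBi]
  have hfin : rhs z b k / z k = mon z' (B - negp (col b' k)) * (rhs z' b' k / z' k) +
      mon z e' * z k ^ (β - 1) * h * ((z' i)⁻¹) ^ c * mon z A := by
    rw [hkz]
    have hzk := hz k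
    rw [div_eq_iff hzk, add_mul, mul_assoc, div_mul_cancel₀ _ hzk, ← hbr, hrk]
    have h1 : z k ^ β = z k ^ (β - 1) * z k := by rw [← pow_succ]; congr 1; omega
    have h2 : z i ^ c = (rhs z b i) ^ c * ((z' i)⁻¹) ^ c := by
      conv_lhs => rw [hzi]
      rw [mul_pow]
    rw [h2, hpow, h1]
    ring
  rw [hfin]
  refine add_mem (mul_mem (hC _ ?_) (w_mem_W _ _ _)) (mul_mem (mul_mem (mul_mem (mul_mem ?_
    (pow_mem hy _)) hh) (pow_mem ?_ _)) ?_)
  · simp only [Pi.sub_apply]
    rw [hBk]
    have h6 : b' k k = 0 := by
      rw [hb'd]; unfold mutB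
      rw [if_neg (by tauto), hkk, max_eq_right (by omega : b k i ≤ 0),
        max_eq_right (by omega : -(b i k) ≤ 0)]
      ring
    unfold negp col; rw [h6]; simp
  · rw [← hm' e' he3]; exact hC e' he4
  · exact Ck_le_W _ _ _ (Subring.subset_closure (Or.inr ⟨i, hik, rfl⟩))
  · rw [← hm' A hAi]; exact hC A hAk

theorem key (z : Fin n → F) (hz : ∀ j, z j ≠ 0) (b : Fin n → Fin n → ℤ) (hs : IsSkew b)
    (i k : Fin n) (hik : i ≠ k) (hii : b i i = 0) (hkk : b k k = 0) (hi : rhs z b i ≠ 0)
    (hb : b i k ≠ 0) : rhs z b k / z k ∈ W (newz z b i) (mutB b i) k := by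
  obtain ⟨d, hd, hd'⟩ := hs
  have h1 := hd' i k
  rcases lt_or_gt_of_ne hb with h | h
  · have h2 : 0 < b k i := by
      by_contra h3
      have h4 : d i * b i k < 0 := mul_neg_of_pos_of_neg (hd i) h
      have h5 : 0 ≤ -(d k * b k i) := by
        rw [neg_nonneg]; exact mul_nonpos_of_nonneg_of_nonpos (hd k).le (by omega)
      omega
    have := key_pos z hz (fun i j => -(b i j)) i k hik (by simp [hii]) (by simp [hkk])
      (by rwa [rhs_neg]) (by simpa using h) (by simpa using h2)
    rw [rhs_neg, newz_neg, mutB_neg, W_neg] at this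
    exact this
  · have h2 : b k i < 0 := by
      by_contra h3
      have h4 : 0 < d i * b i k := mul_pos (hd i) h
      have h5 : -(d k * b k i) ≤ 0 := by
        rw [neg_nonpos]; exact mul_nonneg (hd k).le (by omega)
      omega
    exact key_pos z hz b i k hik hii hkk hi h h2

end Pool.Agent.CluN
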