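import Pool.Agent.CluN.Defs

/-!
# Laurent monomials in independent elements
-/

namespace Pool.Agent.CluN

variable {F : Type} [Field F] {n : ℕ} {z : Fin n → F}

theorem mon_add (hz : ∀ i, z i ≠ 0) (m m' : Fin n → ℤ) : mon z (m + m') = mon z m * mon z m' := by
  unfold mon
  rw [← Finset.prod_mul_distrib]
  exact Finset.prod_congr rfl fun i _ => by rw [Pi.add_apply, zpow_add₀ (hz i)]

private theorem mon_zero : mon z 0 = 1 := by simp [mon]

private theorem mon_single (k : Fin n) (t : ℤ) : mon z (Pi.single k t) = z k ^ t := by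
  unfold mon
  rw [Finset.prod_eq_single k]
  · rw [Pi.single_eq_same]
  · intro b _ hb
    rw [Pi.single_eq_of_ne hb, zpow_zero]
  · intro h
    exact absurd (Finset.mem_univ k) h

private theorem mon_ne (hz : ∀ i, z i ≠ 0) (m : Fin n → ℤ) : mon z m ≠ 0 := by
  unfold mon
  exact Finset.prod_ne_zero_iff.2 fun i _ => zpow_ne_zero _ (hz i)

/-- the span of the monomials with exponent `t` at `k` -/
private def W (z : Fin n → F) (k : Fin n) (t : ℤ) : Submodule ℤ F :=
  Submodule.span ℤ (mon z '' {m | m k = t})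

private theorem W_mul (hz : ∀ i, z i ≠ 0) {k : Fin n} {s t : ℤ} {a b : F} (ha : a ∈ W z k s)
    (hb : b ∈ W z k t) : a * b ∈ W z k (s + t) := by
  have h := Submodule.mul_mem_mul ha hb
  unfold W at h
  rw [Submodule.span_mul_span] at h
  refine Submodule.span_mono ?_ h
  rintro _ ⟨_, ⟨m, hm, rfl⟩, _, ⟨m', hm', rfl⟩, rfl⟩
  refine ⟨m + m', ?_, mon_add hz m m'⟩
  rw [Set.mem_ofPred_eq] at *
  rw [Pi.add_apply, hm, hm']

private theorem W_one (k : Fin n) : (1 : F) ∈ W z k 0 :=
  Submodule.subset_span ⟨0, rfl, mon_zero⟩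

private theorem W_pow (hz : ∀ i, z i ≠ 0) {k : Fin n} {a : F} (ha : a ∈ W z k 0) (N : ℕ) :
    a ^ N ∈ W z k 0 := by
  induction N with
  | zero => rw [pow_zero]; exact W_one k
  | succ N ih =>
    rw [pow_succ]
    have := W_mul hz ih ha
    rwa [add_zero] at this

private theorem W_eq (k : Fin n) : W z k 0 =
    Submodule.span ℤ {x | ∃ m : Fin n → ℤ, m k = 0 ∧ x = mon z m} := by
  unfold W
  congr 1
  ext x
  constructor
  · rintro ⟨m, hm, rfl⟩
    exact ⟨m, hm, rfl⟩
  · rintro ⟨m, hm, rfl⟩
    exact ⟨m, hm, rfl⟩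

private theorem sum_zero {ι : Type} (hz : LinearIndependent ℤ (mon z)) (k : Fin n) (T : Finset ι)
    (τ : ι → ℤ) (hτ : Function.Injective τ) (x : ι → F) (hx : ∀ i ∈ T, x i ∈ W z k (τ i))
    (h : ∑ i ∈ T, x i = 0) : ∀ i ∈ T, x i = 0 := by
  classical
  intro t ht
  have h1 : x t = - ∑ s ∈ T.erase t, x s := by
    rw [← Finset.add_sum_erase T x ht] at h
    exact eq_neg_of_add_eq_zero_left h
  have h2 : x t ∈ Submodule.span ℤ (mon z '' {m | m k = τ t}ᶜ) := by
    rw [h1]
    refine neg_mem (Submodule.sum_mem _ fun s hs => ?_)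
    refine Submodule.span_mono ?_ (hx s (Finset.mem_of_mem_erase hs))
    refine Set.image_mono fun m hm => ?_
    intro hc
    have h3 : τ s = τ t := (show m k = τ s from hm).symm.trans hc
    exact (Finset.ne_of_mem_erase hs) (hτ h3)
  have h3 := hz.disjoint_span_image (disjoint_compl_right : Disjoint {m : Fin n → ℤ | m k = τ t} _)
  exact Submodule.disjoint_def.1 h3 _ (hx t ht) h2

theorem ind_of_algebraicIndependent (z : Fin n → F) (h : AlgebraicIndependent ℤ z) : Ind z := by
  classical
  have hz : ∀ i, z i ≠ 0 := fun i => h.ne_zero i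
  refine ⟨hz, ?_⟩
  have h1 : LinearIndependent ℤ (fun e : Fin n →₀ ℕ => ∏ i, z i ^ e i) := by
    have h2 : LinearIndependent ℤ (fun e : Fin n →₀ ℕ => (MvPolynomial.monomial e (1 : ℤ))) := by
      have := (MvPolynomial.basisMonomials (Fin n) ℤ).linearIndependent
      rwa [MvPolynomial.coe_basisMonomials] at this
    have h3 := h2.map' (MvPolynomial.aeval z : MvPolynomial (Fin n) ℤ →ₐ[ℤ] F).toLinearMap
      (LinearMap.ker_eq_bot.2 h)
    have e1 : (fun e : Fin n →₀ ℕ => ∏ i, z i ^ e i) =
        ⇑(MvPolynomial.aeval z : MvPolynomial (Fin n) ℤ →ₐ[ℤ] F).toLinearMap ∘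
          (fun e : Fin n →₀ ℕ => (MvPolynomial.monomial e (1 : ℤ))) := by
      funext e
      simp only [Function.comp_apply, AlgHom.toLinearMap_apply, MvPolynomial.aeval_monomial,
        map_one, one_mul]
      rw [Finsupp.prod_fintype]
      intro i
      exact pow_zero _
    rw [e1]
    exact h3
  rw [linearIndependent_iff_finset_linearIndependent]
  intro s
  obtain ⟨N, hN⟩ : ∃ N : ℕ, ∀ m ∈ s, ∀ i, 0 ≤ m i + (N : ℤ) := by
    refine ⟨∑ m ∈ s, ∑ i, (m i).natAbs, fun m hm i => ?_⟩
    have h2 : (m i).natAbs ≤ ∑ i, (m i).natAbs :=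
      Finset.single_le_sum (f := fun i => (m i).natAbs) (fun _ _ => Nat.zero_le _) (Finset.mem_univ i)
    have h3 : ∑ i, (m i).natAbs ≤ ∑ m ∈ s, ∑ i, (m i).natAbs :=
      Finset.single_le_sum (f := fun m : Fin n → ℤ => ∑ i, (m i).natAbs) (fun _ _ => Nat.zero_le _) hm
    omega
  set c : F := mon z (fun _ => (N : ℤ)) with hc
  refine LinearIndependent.of_comp (LinearMap.mulLeft ℤ c) ?_
  set e : s → (Fin n →₀ ℕ) := fun m => Finsupp.equivFunOnFinite.symm fun i => ((m : Fin n → ℤ) i + N).toNat
    with he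
  have hinj : Function.Injective e := by
    intro m m' hmm
    apply Subtype.ext
    funext i
    have h2 : ((m : Fin n → ℤ) i + N).toNat = ((m' : Fin n → ℤ) i + N).toNat := by
      have := DFunLike.congr_fun hmm i
      simpa [he] using this
    have h3 := hN m m.2 i
    have h4 := hN m' m'.2 i
    omega
  have e2 : ⇑(LinearMap.mulLeft ℤ c) ∘ (mon z ∘ (Subtype.val : s → Fin n → ℤ)) =
      (fun e : Fin n →₀ ℕ => ∏ i, z i ^ e i) ∘ e := by
    funext m
    simp only [Function.comp_apply, LinearMap.mulLeft_apply]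
    rw [hc, ← mon_add hz]
    unfold mon
    refine Finset.prod_congr rfl fun i _ => ?_
    have h3 := hN m m.2 i
    rw [← zpow_natCast]
    congr 1
    simp only [he, Finsupp.equivFunOnFinite_symm_apply_apply, Pi.add_apply]
    omega
  rw [e2]
  exact h1.comp e hinj

theorem mem_Ck_iff (hz : ∀ i, z i ≠ 0) (k : Fin n) (c : F) :
    c ∈ Ck z k ↔ c ∈ Submodule.span ℤ {x | ∃ m : Fin n → ℤ, m k = 0 ∧ x = mon z m} := by
  rw [← W_eq]
  constructor
  · intro h
    unfold Ck at h
    induction h using Subring.closure_induction with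
    | mem x hx =>
      rcases hx with ⟨j, hj, rfl⟩ | ⟨j, hj, rfl⟩
      · refine Submodule.subset_span ⟨Pi.single j 1, ?_, ?_⟩
        · exact Pi.single_eq_of_ne (Ne.symm hj) _
        · rw [mon_single, zpow_one]
      · refine Submodule.subset_span ⟨Pi.single j (-1), ?_, ?_⟩
        · exact Pi.single_eq_of_ne (Ne.symm hj) _
        · rw [mon_single, zpow_neg_one]
    | zero => exact Submodule.zero_mem _
    | one => exact W_one k
    | add x y _ _ hx hy => exact Submodule.add_mem _ hx hy
    | neg x _ hx => exact Submodule.neg_mem _ hx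
    | mul x y _ _ hx hy =>
      have := W_mul hz hx hy
      rwa [add_zero] at this
  · intro h
    unfold W at h
    induction h using Submodule.span_induction with
    | mem x hx =>
      obtain ⟨m, hm, rfl⟩ := hx
      have hm' : m k = 0 := hm
      unfold mon
      refine Subring.prod_mem _ fun i _ => ?_
      by_cases hi : i = k
      · rw [hi, hm', zpow_zero]
        exact Subring.one_mem _
      · obtain ⟨a, ha | ha⟩ := Int.eq_nat_or_neg (m i)
        · rw [ha, zpow_natCast]
          exact pow_mem (show z i ∈ Ck z k from Subring.subset_closure (Or.inl ⟨i, hi, rfl⟩)) _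
        · rw [ha, zpow_neg, zpow_natCast, ← inv_pow]
          exact pow_mem (show (z i)⁻¹ ∈ Ck z k from Subring.subset_closure (Or.inr ⟨i, hi, rfl⟩)) _
    | zero => exact Subring.zero_mem _
    | add x y _ _ hx hy => exact Subring.add_mem _ hx hy
    | smul a x _ hx => exact Subring.zsmul_mem _ hx a

theorem pair_of_ind (hz : Ind z) (k : Fin n) : Pair (Ck z k) (z k) := by
  refine ⟨hz.1 k, ?_⟩
  have h0 : ∀ p : Polynomial (Ck z k), Polynomial.eval₂ (Ck z k).subtype (z k) p = 0 → p = 0 := by
    intro p hp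
    rw [Polynomial.eval₂_eq_sum, Polynomial.sum_def] at hp
    have h1 := sum_zero (ι := ℕ) hz.2 k p.support (fun s => (s : ℤ)) Nat.cast_injective _ (fun s _ => ?_) hp
    · ext s
      by_contra hne
      have hs : s ∈ p.support := by
        rw [Polynomial.mem_support_iff]
        intro h2
        exact hne (by rw [h2, Polynomial.coeff_zero])
      have h2 := h1 s hs
      rw [mul_eq_zero] at h2
      rcases h2 with h2 | h2
      · exact hne h2
      · exact pow_ne_zero _ (hz.1 k) h2
    · have h2 : (Ck z k).subtype (p.coeff s) ∈ W z k 0 := by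
        rw [W_eq]
        exact (mem_Ck_iff hz.1 k _).1 (p.coeff s).2
      have h3 : z k ^ s ∈ W z k (s : ℤ) := by
        refine Submodule.subset_span ⟨Pi.single k (s : ℤ), ?_, ?_⟩
        · rw [Set.mem_ofPred_eq, Pi.single_eq_same]
        · rw [mon_single, zpow_natCast]
      have h4 := W_mul hz.1 h2 h3
      rwa [zero_add] at h4
  intro p p' hpp
  have h1 := h0 (p - p') (by rw [Polynomial.eval₂_sub]; exact sub_eq_zero.2 hpp)
  exact sub_eq_zero.1 h1

theorem ind_update (hz : Ind z) (k : Fin n) (P : F) (hP : P ∈ Ck z k) (hP0 : P ≠ 0) :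
    Ind (Function.update z k (P / z k)) := by
  classical
  set z' := Function.update z k (P / z k) with hz'
  have hne : ∀ i, z' i ≠ 0 := by
    intro i
    by_cases hi : i = k
    · rw [hi, hz', Function.update_self]
      exact div_ne_zero hP0 (hz.1 k)
    · rw [hz', Function.update_of_ne hi]
      exact hz.1 i
  refine ⟨hne, ?_⟩
  -- the monomials in `z'`
  set ba : (Fin n → ℤ) → (Fin n → ℤ) := fun m => Function.update m k (-(m k)) with hba
  have hinv : ∀ m, ba (ba m) = m := by
    intro m
    rw [hba]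
    simp
  have hmon : ∀ m, mon z' m = P ^ (m k) * mon z (ba m) := by
    intro m
    unfold mon
    rw [← Finset.mul_prod_erase Finset.univ (fun i => z' i ^ m i) (Finset.mem_univ k),
      ← Finset.mul_prod_erase Finset.univ (fun i => z i ^ ba m i) (Finset.mem_univ k)]
    have h1 : ∏ i ∈ Finset.univ.erase k, z' i ^ m i = ∏ i ∈ Finset.univ.erase k, z i ^ ba m i := by
      refine Finset.prod_congr rfl fun i hi => ?_
      have hi' := Finset.ne_of_mem_erase hi
      rw [hz', hba]
      simp only
      rw [Function.update_of_ne hi', Function.update_of_ne hi']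
    rw [h1, ← mul_assoc]
    congr 1
    rw [hz', hba]
    simp only
    rw [Function.update_self, Function.update_self, div_zpow, zpow_neg, div_eq_mul_inv]
  have hPW : P ∈ W z k 0 := by
    rw [W_eq]
    exact (mem_Ck_iff hz.1 k P).1 hP
  rw [linearIndependent_iff']
  intro s g hg
  obtain ⟨N, hN⟩ : ∃ N : ℕ, ∀ m ∈ s, 0 ≤ m k + (N : ℤ) := by
    refine ⟨∑ m ∈ s, (m k).natAbs, fun m hm => ?_⟩
    have h3 : (m k).natAbs ≤ ∑ m ∈ s, (m k).natAbs :=
      Finset.single_le_sum (f := fun m : Fin n → ℤ => (m k).natAbs) (fun _ _ => Nat.zero_le _) hm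
    omega
  set T : Finset ℤ := s.image (fun m => m k) with hT
  set u : ℤ → F := fun t => ∑ m ∈ s with m k = t, g m • mon z (ba m) with hu
  have huW : ∀ t, u t ∈ W z k (-t) := by
    intro t
    refine Submodule.sum_mem _ fun m hm => Submodule.smul_mem _ _ (Submodule.subset_span ⟨ba m, ?_, rfl⟩)
    rw [Finset.mem_filter] at hm
    rw [Set.mem_ofPred_eq, hba]
    simp only
    rw [Function.update_self, hm.2]
  have h1 : ∑ t ∈ T, P ^ ((t + N).toNat) * u t = 0 := by
    have h2 : P ^ N * ∑ m ∈ s, g m • mon z' m = 0 := by rw [hg, mul_zero]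
    rw [← h2, ← Finset.sum_fiberwise_of_maps_to (s := s) (t := T) (g := fun m => m k)
      (fun m hm => Finset.mem_image_of_mem _ hm) (fun m => g m • mon z' m), Finset.mul_sum]
    refine Finset.sum_congr rfl fun t ht => ?_
    rw [hu]
    simp only
    rw [Finset.mul_sum, Finset.mul_sum]
    refine Finset.sum_congr rfl fun m hm => ?_
    rw [Finset.mem_filter] at hm
    have h3 := hN m hm.1
    rw [hmon, hm.2, mul_smul_comm, mul_smul_comm, ← mul_assoc]
    congr 2
    rw [← zpow_natCast, ← zpow_natCast, ← zpow_add₀ hP0]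
    congr 1
    rw [hm.2] at h3
    omega
  have h2 := sum_zero hz.2 k T (fun t => -t) neg_injective _ (fun t _ => by
    have := W_mul hz.1 (W_pow hz.1 hPW ((t + N).toNat)) (huW t)
    rwa [zero_add] at this) h1
  intro m hm
  have h3 := h2 (m k) (Finset.mem_image_of_mem _ hm)
  rw [mul_eq_zero] at h3
  have h4 : u (m k) = 0 := h3.resolve_left (pow_ne_zero _ hP0)
  have hbinj : Function.Injective ba := fun a b hab => by
    rw [← hinv a, hab, hinv b]
  have h5 := linearIndependent_iff'.1 (hz.2.comp ba hbinj) (s.filter fun m' => m' k = m k) g h4 m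
    (Finset.mem_filter.2 ⟨hm, rfl⟩)
  exact h5

end Pool.Agent.CluN
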