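import Pool.Agent.CluN.Laur

/-!
# Laurent phenomenon: the star rings of adjacent seeds
-/

namespace Pool.Agent.CluN

variable {F : Type} [Field F] {n : ℕ}

theorem skew_diag {b : Fin n → Fin n → ℤ} (hs : IsSkew b) (i : Fin n) : b i i = 0 := by
  obtain ⟨d, hd, hd'⟩ := hs
  have h1 := hd' i i
  have h2 := hd i
  have h3 : d i * b i i = 0 := by omega
  rcases mul_eq_zero.1 h3 with h | h
  · omega
  · exact h

theorem isSkew_mutB {b : Fin n → Fin n → ℤ} (hs : IsSkew b) (k : Fin n) : IsSkew (mutB b k) := by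
  obtain ⟨d, hd, hd'⟩ := hs
  refine ⟨d, hd, fun i j => ?_⟩
  have hpos : ∀ i j : Fin n, d i * max (b i j) 0 = d j * max (-(b j i)) 0 := by
    intro i j
    rw [mul_max_of_nonneg _ _ (hd i).le, mul_max_of_nonneg _ _ (hd j).le, mul_zero, mul_zero,
      hd' i j]
    congr 1; ring
  unfold mutB
  by_cases h : i = k ∨ j = k
  · rw [if_pos h, if_pos (Or.comm.1 h)]
    have := hd' i j
    linear_combination (-1) * this
  · rw [if_neg h, if_neg (fun h' => h (Or.comm.1 h'))]
    have h1 := hd' i j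
    have h2 := hpos i k
    have h3 := hpos k j
    have h4 := hpos j k
    have h5 := hpos k i
    have e1 : d i * (max (b i k) 0 * max (b k j) 0) = d j * (max (-(b j k)) 0 * max (-(b k i)) 0) := by
      calc d i * (max (b i k) 0 * max (b k j) 0) = (d i * max (b i k) 0) * max (b k j) 0 := by ring
        _ = (d k * max (-(b k i)) 0) * max (b k j) 0 := by rw [h2]
        _ = max (-(b k i)) 0 * (d k * max (b k j) 0) := by ring
        _ = max (-(b k i)) 0 * (d j * max (-(b j k)) 0) := by rw [h3]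
        _ = _ := by ring
    have e2 : d i * (max (-(b i k)) 0 * max (-(b k j)) 0) = d j * (max (b j k) 0 * max (b k i) 0) := by
      calc d i * (max (-(b i k)) 0 * max (-(b k j)) 0)
          = (d i * max (-(b i k)) 0) * max (-(b k j)) 0 := by ring
        _ = (d k * max (b k i) 0) * max (-(b k j)) 0 := by rw [← h5]
        _ = max (b k i) 0 * (d k * max (-(b k j)) 0) := by ring
        _ = max (b k i) 0 * (d j * max (b j k) 0) := by rw [← h4]
        _ = _ := by ring
    linear_combination h1 + e1 - e2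

theorem mon_ne_zero {z : Fin n → F} (hz : ∀ i, z i ≠ 0) (m : Fin n → ℤ) : mon z m ≠ 0 := by
  unfold mon
  exact Finset.prod_ne_zero_iff.2 fun i _ => zpow_ne_zero _ (hz i)

theorem mon_add_mon_ne {z : Fin n → F} (hz : Ind z) (m m' : Fin n → ℤ) : mon z m + mon z m' ≠ 0 := by
  classical
  intro h
  have h1 := (linearIndependent_iff.1 hz.2) (Finsupp.single m 1 + Finsupp.single m' 1) (by
    rw [map_add, Finsupp.linearCombination_single, Finsupp.linearCombination_single]
    simpa using h)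
  have h2 := DFunLike.congr_fun h1 m
  rw [Finsupp.add_apply, Finsupp.single_eq_same, Finsupp.single_apply] at h2
  split_ifs at h2 <;> simp at h2

theorem rhs_ne_zero {z : Fin n → F} (hz : Ind z) (b : Fin n → Fin n → ℤ) (k : Fin n) :
    rhs z b k ≠ 0 := by
  rw [rhs_eq]; exact mon_add_mon_ne hz _ _

theorem rhs_mem_Ck (z : Fin n → F) {b : Fin n → Fin n → ℤ} (k : Fin n) (hk : b k k = 0) :
    rhs z b k ∈ Ck z k := by
  rw [rhs_eq]
  exact add_mem (mon_mem_Ck z k _ (by unfold posp col; simp [hk]))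
    (mon_mem_Ck z k _ (by unfold negp col; simp [hk]))

theorem W_eq_TT (z : Fin n → F) (b : Fin n → Fin n → ℤ) (k : Fin n) (hk : z k ≠ 0)
    (hQ : rhs z b k ∈ Ck z k) : TT (Ck z k) (z k) ⟨rhs z b k, hQ⟩ = W z b k := by
  apply TT_eq_closure _ hk
  change z k * (rhs z b k / z k) = rhs z b k
  field_simp

theorem clear_of_closure (T : Subring F) (u : F) (hu : u ∈ T) (S : Set F)
    (h : ∀ x ∈ S, ∃ K : ℕ, u ^ K * x ∈ T) (x : F) (hx : x ∈ Subring.closure S) :
    ∃ K : ℕ, u ^ K * x ∈ T := by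
  induction hx using Subring.closure_induction with
  | mem x hx => exact h x hx
  | zero => exact ⟨0, by simp⟩
  | one => exact ⟨0, by simp⟩
  | add a c _ _ ha hc =>
    obtain ⟨K, hK⟩ := ha
    obtain ⟨K', hK'⟩ := hc
    refine ⟨K + K', ?_⟩
    have : u ^ (K + K') * (a + c) = u ^ K' * (u ^ K * a) + u ^ K * (u ^ K' * c) := by
      rw [pow_add]; ring
    rw [this]
    exact add_mem (mul_mem (pow_mem hu _) hK) (mul_mem (pow_mem hu _) hK')
  | neg a _ ha =>
    obtain ⟨K, hK⟩ := ha
    exact ⟨K, by rw [mul_neg]; exact neg_mem hK⟩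
  | mul a c _ _ ha hc =>
    obtain ⟨K, hK⟩ := ha
    obtain ⟨K', hK'⟩ := hc
    refine ⟨K + K', ?_⟩
    have : u ^ (K + K') * (a * c) = (u ^ K * a) * (u ^ K' * c) := by
      rw [pow_add]; ring
    rw [this]
    exact mul_mem hK hK'

/-- data at an adjacent seed -/
theorem ind_newz {z : Fin n → F} (hz : Ind z) (b : Fin n → Fin n → ℤ) (i : Fin n)
    (hii : b i i = 0) : Ind (newz z b i) :=
  ind_update hz i _ (rhs_mem_Ck z i hii) (rhs_ne_zero hz b i)

/-- The elements of `Ck z k` lie, after multiplication by a power of `rhs z b i`, in every ring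
containing the Laurent polynomials of the new cluster without `z k` and `rhs z b i`. -/
theorem clear_Ck {z : Fin n → F} (hz : Ind z) (b : Fin n → Fin n → ℤ) (i k : Fin n) (hik : i ≠ k)
    (T : Subring F) (hT : Ck (newz z b i) k ≤ T) (hu : rhs z b i ∈ T) (x : F) (hx : x ∈ Ck z k) :
    ∃ K : ℕ, (rhs z b i) ^ K * x ∈ T := by
  refine clear_of_closure T _ hu _ ?_ x hx
  have hzi := hz.1 i
  have hu0 := rhs_ne_zero hz b i
  rintro x (⟨j, hj, rfl⟩ | ⟨j, hj, rfl⟩)
  · by_cases hji : j = i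
    · subst hji
      refine ⟨0, ?_⟩
      have h1 : (newz z b j j)⁻¹ ∈ T := hT (Subring.subset_closure (Or.inr ⟨j, hj, rfl⟩))
      have h2 : (rhs z b j) ^ 0 * z j = rhs z b j * (newz z b j j)⁻¹ := by
        rw [newz_self]; field_simp
      rw [h2]
      exact mul_mem hu h1
    · refine ⟨0, ?_⟩
      rw [pow_zero, one_mul, ← newz_of_ne z b hji]
      exact hT (Subring.subset_closure (Or.inl ⟨j, hj, rfl⟩))
  · by_cases hji : j = i
    · subst hji
      refine ⟨1, ?_⟩
      have h1 : newz z b j j ∈ T := hT (Subring.subset_closure (Or.inl ⟨j, hj, rfl⟩))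
      have h2 : (rhs z b j) ^ 1 * (z j)⁻¹ = newz z b j j := by
        rw [newz_self]; field_simp
      rw [h2]
      exact h1
    · refine ⟨0, ?_⟩
      rw [pow_zero, one_mul, ← newz_of_ne z b hji]
      exact hT (Subring.subset_closure (Or.inr ⟨j, hj, rfl⟩))

/-- saturation with respect to `rhs z b i` in the new cluster -/
theorem sat_rhs {z : Fin n → F} (hz : Ind z) (b : Fin n → Fin n → ℤ) (i k : Fin n) (hik : i ≠ k)
    (hii : b i i = 0) (hki : b k i ≠ 0) (Q : Ck (newz z b i) k) (K : ℕ) (f : F)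
    (hf : f ∈ TT (Ck (newz z b i) k) (newz z b i k) 1)
    (h : (rhs z b i) ^ K * f ∈ TT (Ck (newz z b i) k) (newz z b i k) Q) :
    f ∈ TT (Ck (newz z b i) k) (newz z b i k) Q := by
  obtain ⟨e, e', β, hβ, he1, he2, he3, he4, hu, -⟩ := rhs_split z b i k hik hii hki
  have hz' := ind_newz hz b i hii
  have hm' : ∀ m : Fin n → ℤ, m i = 0 → mon (newz z b i) m = mon z m :=
    fun m hm => mon_update z i _ m hm
  have hkz : newz z b i k = z k := newz_of_ne _ _ (Ne.symm hik)
  refine sat_pow (pair_of_ind hz' k) Q ⟨mon (newz z b i) e, mon_mem_Ck _ k e he2⟩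
    ⟨mon (newz z b i) (-e), mon_mem_Ck _ k _ (by simp [he2])⟩
    ⟨mon (newz z b i) e', mon_mem_Ck _ k e' he4⟩ ?_ β hβ K f hf ?_
  · apply Subtype.ext
    change mon (newz z b i) (-e) * mon (newz z b i) e = 1
    rw [← mon_add hz'.1, neg_add_cancel]
    unfold mon; simp
  · change (mon (newz z b i) e + mon (newz z b i) e' * newz z b i k ^ β) ^ K * f ∈ _
    rw [hm' e he1, hm' e' he3, hkz, ← hu]
    rw [hkz] at h
    exact h

/-- the rings of Laurent polynomials of adjacent clusters -/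
theorem W_le_TT_one {z : Fin n → F} (hz : Ind z) (b : Fin n → Fin n → ℤ) (i k : Fin n)
    (hik : i ≠ k) (hii : b i i = 0) (hki : b k i ≠ 0) :
    W z b i ≤ TT (Ck (newz z b i) k) (newz z b i k) 1 := by
  obtain ⟨e, e', β, hβ, he1, he2, he3, he4, hu, -⟩ := rhs_split z b i k hik hii hki
  have hz' := ind_newz hz b i hii
  have hm' : ∀ m : Fin n → ℤ, m i = 0 → mon (newz z b i) m = mon z m :=
    fun m hm => mon_update z i _ m hm
  have hkz : newz z b i k = z k := newz_of_ne _ _ (Ne.symm hik)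
  set T := TT (Ck (newz z b i) k) (newz z b i k) 1 with hT
  have hC : Ck (newz z b i) k ≤ T := C_le_TT _
  have hy : z k ∈ T := by rw [← hkz]; exact y_mem_TT _
  have hy' : (z k)⁻¹ ∈ T := by rw [← hkz]; exact inv_mem_TT_one (hz'.1 k)
  have hu' : rhs z b i ∈ T := by
    rw [hu]
    refine add_mem ?_ (mul_mem ?_ (pow_mem hy _))
    · rw [← hm' e he1]; exact hC (mon_mem_Ck _ k e he2)
    · rw [← hm' e' he3]; exact hC (mon_mem_Ck _ k e' he4)
  have hi : newz z b i i ∈ T := hC (Subring.subset_closure (Or.inl ⟨i, hik, rfl⟩))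
  have hi' : (newz z b i i)⁻¹ ∈ T := hC (Subring.subset_closure (Or.inr ⟨i, hik, rfl⟩))
  have hzi := hz.1 i
  have hu0 := rhs_ne_zero hz b i
  unfold W
  rw [Subring.closure_le]
  rintro x (hx | hx | hx)
  · have : Ck z i ≤ T := by
      unfold Ck
      rw [Subring.closure_le]
      rintro x (⟨j, hj, rfl⟩ | ⟨j, hj, rfl⟩)
      · by_cases hjk : j = k
        · rw [hjk]; exact hy
        · rw [← newz_of_ne z b hj]
          exact hC (Subring.subset_closure (Or.inl ⟨j, hjk, rfl⟩))
      · by_cases hjk : j = k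
        · rw [hjk]; exact hy'
        · rw [← newz_of_ne z b hj]
          exact hC (Subring.subset_closure (Or.inr ⟨j, hjk, rfl⟩))
    exact this hx
  · rw [hx]
    have h2 : z i = rhs z b i * (newz z b i i)⁻¹ := by
      rw [newz_self]; field_simp
    rw [h2]
    exact mul_mem hu' hi'
  · rw [hx, ← newz_self]; exact hi

/-- propagation of the star conditions -/
theorem propagate {z : Fin n → F} (hz : Ind z) {b : Fin n → Fin n → ℤ} (hs : IsSkew b)
    (hne : ∀ i j, i ≠ j → b i j ≠ 0) (i k : Fin n) (hik : i ≠ k) (f : F) (hi : f ∈ W z b i)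
    (hk : f ∈ W z b k) : f ∈ W (newz z b i) (mutB b i) k := by
  have hii := skew_diag hs i
  have hz' := ind_newz hz b i hii
  have hki := hne k i (Ne.symm hik)
  have hs' := isSkew_mutB hs i
  have hQ : rhs (newz z b i) (mutB b i) k ∈ Ck (newz z b i) k :=
    rhs_mem_Ck _ k (skew_diag hs' k)
  have hkz : newz z b i k = z k := newz_of_ne _ _ (Ne.symm hik)
  have hT := W_eq_TT (newz z b i) (mutB b i) k (hz'.1 k) hQ
  have hu : rhs z b i ∈ W (newz z b i) (mutB b i) k := by
    obtain ⟨e, e', β, hβ, he1, he2, he3, he4, hu, -⟩ := rhs_split z b i k hik hii hki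
    have hm' : ∀ m : Fin n → ℤ, m i = 0 → mon (newz z b i) m = mon z m :=
      fun m hm => mon_update z i _ m hm
    rw [hu]
    refine add_mem ?_ (mul_mem ?_ (pow_mem ?_ _))
    · rw [← hm' e he1]; exact Ck_le_W _ _ _ (mon_mem_Ck _ k e he2)
    · rw [← hm' e' he3]; exact Ck_le_W _ _ _ (mon_mem_Ck _ k e' he4)
    · rw [← hkz]; exact z_mem_W _ _ _
  obtain ⟨K, hK⟩ : ∃ K : ℕ, (rhs z b i) ^ K * f ∈ W (newz z b i) (mutB b i) k := by
    refine clear_of_closure _ _ hu _ ?_ f hk
    rintro x (hx | hx | hx)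
    · exact clear_Ck hz b i k hik _ (Ck_le_W _ _ _) hu x hx
    · refine ⟨0, ?_⟩
      rw [pow_zero, one_mul, hx, ← hkz]; exact z_mem_W _ _ _
    · refine ⟨0, ?_⟩
      rw [pow_zero, one_mul, hx]
      exact key z hz.1 b hs i k hik hii (skew_diag hs k) (rhs_ne_zero hz b i) (hne i k hik)
  rw [← hT] at hK ⊢
  exact sat_rhs hz b i k hik hii hki _ K f (W_le_TT_one hz b i k hik hii hki hi) hK

/-- denominators in the other directions do not change -/
theorem ordGe_newz {z : Fin n → F} (hz : Ind z) {b : Fin n → Fin n → ℤ} (i k : Fin n)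
    (hik : i ≠ k) (hii : b i i = 0) (hki : b k i ≠ 0) (f : F) (hi : f ∈ W z b i) (E : ℕ)
    (hE : OrdGe (Ck z k) (z k) E f) : OrdGe (Ck (newz z b i) k) (newz z b i k) E f := by
  have hz' := ind_newz hz b i hii
  have hkz : newz z b i k = z k := newz_of_ne _ _ (Ne.symm hik)
  obtain ⟨p, hp⟩ := hE
  set T := TT (Ck (newz z b i) k) (newz z b i k) 0 with hT
  have hC : Ck (newz z b i) k ≤ T := C_le_TT _
  have hy : z k ∈ T := by rw [← hkz]; exact y_mem_TT _
  have hu : rhs z b i ∈ T := by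
    obtain ⟨e, e', β, hβ, he1, he2, he3, he4, hu, -⟩ := rhs_split z b i k hik hii hki
    have hm' : ∀ m : Fin n → ℤ, m i = 0 → mon (newz z b i) m = mon z m :=
      fun m hm => mon_update z i _ m hm
    rw [hu]
    refine add_mem ?_ (mul_mem ?_ (pow_mem hy _))
    · rw [← hm' e he1]; exact hC (mon_mem_Ck _ k e he2)
    · rw [← hm' e' he3]; exact hC (mon_mem_Ck _ k e' he4)
  have hcl : z k ^ E * f ∈ Subring.closure ((Ck z k : Set F) ∪ {z k}) := by
    rw [hp, Polynomial.eval₂_eq_sum_range]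
    refine Subring.sum_mem _ fun s _ => mul_mem (Subring.subset_closure (Or.inl (p.coeff s).2))
      (pow_mem (Subring.subset_closure (by simp)) _)
  obtain ⟨K, hK⟩ : ∃ K : ℕ, (rhs z b i) ^ K * (z k ^ E * f) ∈ T := by
    refine clear_of_closure _ _ hu _ ?_ _ hcl
    rintro x (hx | hx)
    · exact clear_Ck hz b i k hik _ hC hu x hx
    · refine ⟨0, ?_⟩
      rw [pow_zero, one_mul, hx]; exact hy
  have h1 : z k ^ E * f ∈ TT (Ck (newz z b i) k) (newz z b i k) 1 :=
    mul_mem (pow_mem (by rw [← hkz]; exact y_mem_TT _) _) (W_le_TT_one hz b i k hik hii hki hi)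
  have h2 := sat_rhs hz b i k hik hii hki 0 K _ h1 hK
  obtain ⟨q, hq⟩ := (mem_TT_zero (hz'.1 k) _).1 h2
  refine ⟨q, ?_⟩
  rw [← hq, pow_zero, one_mul, hkz]

end Pool.Agent.CluN
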